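import Pool.Agent.Helper21.CP.Gen4

/-!
# The genus inequality for function fields of one variable in characteristic zero
-/

set_option autoImplicit false
set_option linter.overlappingInstances false
set_option linter.unusedSectionVars false

open Module Polynomial IntermediateField

namespace Pool.Agent.Helper21.CP

open FF Gen

section

variable {k K : Type*} [Field k] [Field K] [Algebra k K]

/-- `E` does not lower the order too much -/
lemma Gen.weak {E : Derivation k K K} {W : Place k K →₀ ℤ}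
    (hW : ∀ (P : Place k K) (t : K), P.ord t = 1 → W P = -P.ord (E t)) {P : Place k K} {t u : K}
    (ht : P.ord t = 1) (hu0 : u ≠ 0) (hu : P.ord u = 0) :
    E t ∈ ge P (-W P) ∧ t * E u ∈ ge P (-W P) := by
  have ht0 : t ≠ 0 := by
    rintro rfl
    rw [P.ord_zero] at ht
    omega
  have h1 : ∀ s : K, P.ord s = 1 → E s ∈ ge P (-W P) := by
    intro s hs
    right
    rw [hW P s hs]
    omega
  refine ⟨h1 t ht, ?_⟩
  have h2 : P.ord (t * u) = 1 := by rw [P.ord_mul ht0 hu0]; omega
  have h3 : t * E u = E (t * u) - u * E t := by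
    rw [Derivation.leibniz, smul_eq_mul, smul_eq_mul]
    ring
  rw [h3]
  refine (ge P _).sub_mem (h1 _ h2) ?_
  have h4 : u ∈ ge P 0 := Or.inr hu.ge
  have h5 := ge_mul h4 (h1 t ht)
  rwa [zero_add] at h5

lemma Gen.natmul_mem {P : Place k K} {n : ℤ} {f : K} (hf : f ∈ ge P n) (m : ℕ) :
    (m : K) * f ∈ ge P n := by
  have h1 : (m : K) * f = (m : k) • f := by
    rw [Algebra.smul_def, map_natCast]
  rw [h1]
  exact (ge P n).smul_mem _ hf

/-- the order of `W` at a finite place -/
lemma Gen.W_fin {x : K} (hx : Transcendental k x) {E : Derivation k K K} (hE : E x = 1)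
    {W : Place k K →₀ ℤ}
    (hW : ∀ (P : Place k K) (t : K), P.ord t = 1 → W P = -P.ord (E t)) {P : Place k K} {q : k[X]}
    (hq0 : q ≠ 0) (hq : 0 < P.ord (aeval x q)) (hq' : P.ord (aeval x (derivative q)) = 0)
    (hq'0 : derivative q ≠ 0) : P.ord (aeval x q) - 1 ≤ W P := by
  obtain ⟨t, ht0, ht⟩ := P.surj
  set e := P.ord (aeval x q) with he
  obtain ⟨n, hn⟩ : ∃ n : ℕ, e = n + 1 := ⟨(e - 1).toNat, by omega⟩
  set u := aeval x q / t ^ (n + 1) with hu
  have htn : t ^ (n + 1) ≠ 0 := pow_ne_zero _ ht0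
  have hq0' := aeval_ne_zero hx hq0
  have hu0 : u ≠ 0 := div_ne_zero hq0' htn
  have hu1 : P.ord u = 0 := by
    rw [hu, P.ord_div hq0' htn, P.ord_pow, ht, ← he]
    push_cast
    omega
  obtain ⟨h1, h2⟩ := Gen.weak hW ht hu0 hu1
  have h3 : aeval x q = t ^ (n + 1) * u := by rw [hu]; field_simp
  have h4 : aeval x (derivative q) = t ^ n * ((n + 1 : ℕ) * (u * E t) + t * E u) := by
    have h5 : E (aeval x q) = aeval x (derivative q) := by
      rw [Derivation.map_aeval, hE, smul_eq_mul, mul_one]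
    rw [← h5, h3, Derivation.leibniz, Derivation.leibniz_pow]
    simp only [smul_eq_mul, nsmul_eq_mul, Nat.add_sub_cancel]
    ring
  have h5 : ((n + 1 : ℕ) : K) * (u * E t) + t * E u ∈ ge P (-W P) := by
    refine (ge P _).add_mem (Gen.natmul_mem ?_ _) h2
    have h6 : u ∈ ge P 0 := Or.inr hu1.ge
    have h7 := ge_mul h6 h1
    rwa [zero_add] at h7
  have h6 : t ^ n ∈ ge P (n : ℤ) := Or.inr (by rw [P.ord_pow, ht, mul_one])
  have h7 := ge_mul h6 h5
  rw [← h4] at h7
  have h8 := h7.resolve_left (aeval_ne_zero hx hq'0)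
  omega

/-- the order of `W` at a pole -/
lemma Gen.W_inf {x : K} {E : Derivation k K K} (hE : E x = 1)
    {W : Place k K →₀ ℤ}
    (hW : ∀ (P : Place k K) (t : K), P.ord t = 1 → W P = -P.ord (E t)) {P : Place k K}
    (hP : P.ord x < 0) : P.ord x - 1 ≤ W P := by
  obtain ⟨t, ht0, ht⟩ := P.surj
  have hx0 : x ≠ 0 := by
    rintro rfl
    rw [P.ord_zero] at hP
    omega
  obtain ⟨n, hn⟩ : ∃ n : ℕ, -P.ord x = n + 1 := ⟨(-P.ord x - 1).toNat, by omega⟩
  set u := x * t ^ (n + 1) with hu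
  have htn : t ^ (n + 1) ≠ 0 := pow_ne_zero _ ht0
  have hu0 : u ≠ 0 := mul_ne_zero hx0 htn
  have hu1 : P.ord u = 0 := by
    rw [hu, P.ord_mul hx0 htn, P.ord_pow, ht]
    push_cast
    omega
  obtain ⟨h1, h2⟩ := Gen.weak hW ht hu0 hu1
  have h3 : t ^ (n + 1 + 1) = t * E u - (n + 1 : ℕ) * (u * E t) := by
    rw [hu, Derivation.leibniz, Derivation.leibniz_pow, hE]
    simp only [smul_eq_mul, nsmul_eq_mul, Nat.add_sub_cancel]
    ring
  have h4 : t ^ (n + 1 + 1) ∈ ge P (-W P) := by
    rw [h3]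
    refine (ge P _).sub_mem h2 (Gen.natmul_mem ?_ _)
    have h6 : u ∈ ge P 0 := Or.inr hu1.ge
    have h7 := ge_mul h6 h1
    rwa [zero_add] at h7
  have h5 := h4.resolve_left (pow_ne_zero _ ht0)
  rw [P.ord_pow, ht] at h5
  push_cast at h5
  omega

end

section

variable {k K : Type*} [Field k] [Field K] [Algebra k K] [CharZero k] [IsFF k K]

theorem genus_le' {x : K} (hx : Transcendental k x) (E : Derivation k K K) (hE : E x = 1)
    {W : Place k K →₀ ℤ}
    (hW : ∀ (P : Place k K) (t : K), P.ord t = 1 → W P = -P.ord (E t)) (D : Place k K →₀ ℤ) :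
    ddeg D - ell D + 1 ≤ ell W := by
  obtain ⟨r, l, hlin, hlf, hli, hr⟩ := exists_fun hx D
  obtain ⟨Φ, hΦ⟩ := exists_form hx
  have hmem : ∀ i, Φ (l i) ∈ LL W := by
    intro i
    rw [mem_LL_iff]
    intro P
    by_cases h0 : Φ (l i) = 0
    · exact Or.inl h0
    right
    rcases lt_or_ge (P.ord x) 0 with h | h
    · have h1 := form_inf hx (hli i) h0 (hΦ (l i) (hli i) (hlf i)) h
      have h2 := Gen.W_inf hE hW h
      omega
    · obtain ⟨q, hq, hwq, hwq'⟩ := exists_irr hx h
      have h1 := form_fin hx h0 (hΦ (l i) (hli i) (hlf i)) h hq hwq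
      have h2 := Gen.W_fin hx hE hW hq.ne_zero hwq hwq' (by
        intro h3
        have h4 := hq.separable
        rw [Polynomial.separable_def, h3, isCoprime_zero_right] at h4
        exact hq.not_isUnit h4)
      omega
  have hind : LinearIndependent k (fun i => (⟨Φ (l i), hmem i⟩ : LL W)) := by
    rw [Fintype.linearIndependent_iff] at hlin ⊢
    intro g hg
    apply hlin g
    have h1 : Φ (∑ i, g i • l i) = 0 := by
      rw [map_sum]
      have h2 := congrArg (LL W).subtype hg
      rw [map_sum, map_zero] at h2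
      rw [← h2]
      refine Finset.sum_congr rfl fun i _ => ?_
      rw [map_smul]
      rfl
    set m : Module.Dual k K := ∑ i, g i • l i with hm
    have hmi : ∀ h ∈ Bi (k := k) x, m h = 0 := by
      intro h hh
      rw [hm, LinearMap.sum_apply]
      refine Finset.sum_eq_zero fun i _ => ?_
      rw [LinearMap.smul_apply, hli i h hh, smul_zero]
    have hmf : ∀ h ∈ Bf (k := k) x, m h = 0 := by
      intro h hh
      rw [hm, LinearMap.sum_apply]
      refine Finset.sum_eq_zero fun i _ => ?_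
      rw [LinearMap.smul_apply, hlf i h hh, smul_zero]
    apply eq_zero_of_form hx hmi hmf
    intro h hh
    have h2 := hΦ m hmi hmf h hh
    rw [h1, zero_mul] at h2
    have h3 : tr k⟮x⟯ (0 : K) = 0 := by
      have := tr_mul (F := k⟮x⟯) (zero_mem _) (0 : K)
      rwa [zero_mul, zero_mul] at this
    rw [h3] at h2
    by_contra hc
    exact aeval_ne_zero hx hc h2.symm
  have h1 := hind.fintype_card_le_finrank
  rw [Fintype.card_fin] at h1
  unfold ell at hr ⊢
  omega

set_option linter.unusedVariables false in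
/-- **The genus inequality**. -/
theorem genus_le (hk : ∀ x : K, IsAlgebraic k x → x ∈ (algebraMap k K).range) {x : K}
    (hx : Transcendental k x) (E : Derivation k K K) (hE : E x = 1) {W : Place k K →₀ ℤ}
    (hW : ∀ (P : Place k K) (t : K), P.ord t = 1 → W P = -P.ord (E t)) (D : Place k K →₀ ℤ) :
    ddeg D - ell D + 1 ≤ ell W := genus_le' hx E hE hW D

/-- common denominators -/
lemma Gen.exists_denom (D : Place k K →₀ ℚ) :
    ∃ (m : ℕ) (D' : Place k K →₀ ℤ), 1 ≤ m ∧ (∀ P, (D' P : ℚ) = m * D P) ∧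
      (ddeg D' : ℚ) = m * D.sum (fun P a => a * P.deg) := by
  classical
  set m : ℕ := ∏ P ∈ D.support, (D P).den with hm
  have h1 : ∀ P, ((⌊(m : ℚ) * D P⌋ : ℤ) : ℚ) = m * D P := by
    intro P
    by_cases hP : P ∈ D.support
    · obtain ⟨c, hc⟩ : (D P).den ∣ m := Finset.dvd_prod_of_mem (fun P => (D P).den) hP
      have h2 : (m : ℚ) * D P = ((c * (D P).num : ℤ) : ℚ) := by
        rw [hc]
        push_cast
        have := Rat.mul_den_eq_num (D P)
        linear_combination (c : ℚ) * this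
      rw [h2, Int.floor_intCast]
    · rw [Finsupp.notMem_support_iff] at hP
      rw [hP, mul_zero, Int.floor_zero, Int.cast_zero]
  refine ⟨m, D.mapRange (fun a => ⌊(m : ℚ) * a⌋) (by simp), ?_, ?_, ?_⟩
  · exact Nat.one_le_iff_ne_zero.2 (Finset.prod_ne_zero_iff.2 fun P _ => (D P).den_ne_zero)
  · intro P
    rw [Finsupp.mapRange_apply, h1]
  · unfold ddeg
    rw [Finsupp.sum_mapRange_index (by simp), Finsupp.sum, Finsupp.sum, Int.cast_sum,
      Finset.mul_sum]
    refine Finset.sum_congr rfl fun P _ => ?_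
    rw [Int.cast_mul, h1]
    push_cast
    ring

theorem curve_triv' {x : K}
    (hx : Transcendental k x) (E : Derivation k K K) (hE : E x = 1) {W : Place k K →₀ ℤ}
    (hW : ∀ (P : Place k K) (t : K), P.ord t = 1 → W P = -P.ord (E t)) {D : Place k K →₀ ℚ}
    (hD : ∀ P, 0 ≤ D P) (h0 : (ddeg W : ℚ) + D.sum (fun P a => a * P.deg) = 0) :
    ∃ (m : ℕ) (f : K), 1 ≤ m ∧ f ≠ 0 ∧
      ∀ P, (0 : ℚ) ≤ m * ((W P : ℚ) + D P) + P.ord f := by
  by_cases hell : 0 < ell W
  · obtain ⟨f, hf, hf0⟩ := exists_ne_zero_of_ell_pos hell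
    refine ⟨1, f, le_rfl, hf0, fun P => ?_⟩
    have h1 := (mem_LL.1 hf).resolve_left hf0 P
    have h2 : (-(W P : ℚ)) ≤ P.ord f := by exact_mod_cast h1
    have h3 := hD P
    push_cast
    linarith
  · obtain ⟨m, D', hm, hD', hdeg⟩ := Gen.exists_denom D
    have h1 := genus_le' hx E hE hW (m • W + D')
    have h2 : ddeg (m • W + D') = 0 := by
      have h3 : ((ddeg (m • W + D') : ℤ) : ℚ) = 0 := by
        rw [ddeg_add, ddeg_nsmul]
        push_cast
        rw [hdeg, ← mul_add, h0, mul_zero]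
      exact_mod_cast h3
    have h3 := ell_nonneg W
    have h4 : 0 < ell (m • W + D') := by omega
    obtain ⟨f, hf, hf0⟩ := exists_ne_zero_of_ell_pos h4
    refine ⟨m, f, hm, hf0, fun P => ?_⟩
    have h5 := (mem_LL.1 hf).resolve_left hf0 P
    rw [Finsupp.add_apply, Finsupp.smul_apply, nsmul_eq_mul] at h5
    have h6 : (-((m : ℚ) * W P + D' P)) ≤ P.ord f := by exact_mod_cast h5
    rw [hD'] at h6
    linarith

set_option linter.unusedVariables false in
/-- on a curve a divisor `K + D` of degree zero with `D ≥ 0` has a multiple with a section -/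
theorem curve_triv (hk : ∀ x : K, IsAlgebraic k x → x ∈ (algebraMap k K).range) {x : K}
    (hx : Transcendental k x) (E : Derivation k K K) (hE : E x = 1) {W : Place k K →₀ ℤ}
    (hW : ∀ (P : Place k K) (t : K), P.ord t = 1 → W P = -P.ord (E t)) {D : Place k K →₀ ℚ}
    (hD : ∀ P, 0 ≤ D P) (h0 : (ddeg W : ℚ) + D.sum (fun P a => a * P.deg) = 0) :
    ∃ (m : ℕ) (f : K), 1 ≤ m ∧ f ≠ 0 ∧
      ∀ P, (0 : ℚ) ≤ m * ((W P : ℚ) + D P) + P.ord f := curve_triv' hx E hE hW hD h0

end

end Pool.Agent.Helper21.CP
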