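import Pool.Graph.R_seed8.Helper386.D5V.Helper386_FF_Riemann

/-!
# Functionals on the first cohomology of the structure sheaf
-/

set_option autoImplicit false
set_option linter.overlappingInstances false
set_option linter.unusedSectionVars false

open Module

namespace Pool.Agent.Helper21.CP.Gen

open FF

section

variable {k K : Type*} [Field k] [Field K] [Algebra k K]

/-- elements of order at least `n` -/
def ge (P : Place k K) (n : ℤ) : Submodule k K where
  carrier := {f | f = 0 ∨ n ≤ P.ord f}
  zero_mem' := Or.inl rfl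
  add_mem' := by
    intro f g hf hg
    by_cases hf0 : f = 0
    · rwa [hf0, zero_add]
    by_cases hg0 : g = 0
    · rwa [hg0, add_zero]
    by_cases hfg : f + g = 0
    · exact Or.inl hfg
    · right
      exact (le_min (hf.resolve_left hf0) (hg.resolve_left hg0)).trans (P.ord_add hf0 hg0 hfg)
  smul_mem' := by
    intro c f hf
    by_cases hc : c = 0
    · left; rw [hc, zero_smul]
    by_cases hf0 : f = 0
    · left; rw [hf0, smul_zero]
    · right
      rw [Algebra.smul_def, P.ord_mul (by simpa using hc) hf0, P.ord_const hc, zero_add]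
      exact hf.resolve_left hf0

lemma mem_ge {P : Place k K} {n : ℤ} {f : K} : f ∈ ge P n ↔ f = 0 ∨ n ≤ P.ord f := Iff.rfl

lemma ge_mono {P : Place k K} {n m : ℤ} (h : n ≤ m) {f : K} (hf : f ∈ ge P m) : f ∈ ge P n := by
  rcases hf with hf | hf
  · exact Or.inl hf
  · exact Or.inr (h.trans hf)

lemma mem_ge_zero {P : Place k K} {f : K} : f ∈ ge P 0 ↔ P.Reg f := Iff.rfl

lemma ge_mul {P : Place k K} {n m : ℤ} {f g : K} (hf : f ∈ ge P n) (hg : g ∈ ge P m) :
    f * g ∈ ge P (n + m) := by
  by_cases hf0 : f = 0
  · left; rw [hf0, zero_mul]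
  by_cases hg0 : g = 0
  · left; rw [hg0, mul_zero]
  · right
    rw [P.ord_mul hf0 hg0]
    exact add_le_add (hf.resolve_left hf0) (hg.resolve_left hg0)

/-- functions regular at the places where `x` is regular -/
def Bf (x : K) : Submodule k K where
  carrier := {h | ∀ P : Place k K, 0 ≤ P.ord x → h ∈ ge P 0}
  add_mem' := fun hf hg P hP => (ge P 0).add_mem (hf P hP) (hg P hP)
  zero_mem' := fun P _ => (ge P 0).zero_mem
  smul_mem' := fun c _ hf P hP => (ge P 0).smul_mem c (hf P hP)

/-- functions regular at the poles of `x` -/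
def Bi (x : K) : Submodule k K where
  carrier := {h | ∀ P : Place k K, P.ord x < 0 → h ∈ ge P 0}
  add_mem' := fun hf hg P hP => (ge P 0).add_mem (hf P hP) (hg P hP)
  zero_mem' := fun P _ => (ge P 0).zero_mem
  smul_mem' := fun c _ hf P hP => (ge P 0).smul_mem c (hf P hP)

lemma mem_Bf {x h : K} : h ∈ Bf (k := k) x ↔ ∀ P : Place k K, 0 ≤ P.ord x → h ∈ ge P 0 := Iff.rfl

lemma mem_Bi {x h : K} : h ∈ Bi (k := k) x ↔ ∀ P : Place k K, P.ord x < 0 → h ∈ ge P 0 := Iff.rfl

lemma Bf_mul {x f g : K} (hf : f ∈ Bf (k := k) x) (hg : g ∈ Bf (k := k) x) :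
    f * g ∈ Bf (k := k) x := by
  intro P hP
  have := ge_mul (hf P hP) (hg P hP)
  rwa [add_zero] at this

lemma Bi_mul {x f g : K} (hf : f ∈ Bi (k := k) x) (hg : g ∈ Bi (k := k) x) :
    f * g ∈ Bi (k := k) x := by
  intro P hP
  have := ge_mul (hf P hP) (hg P hP)
  rwa [add_zero] at this

end

section

variable {k K : Type*} [Field k] [Field K] [Algebra k K] [CharZero k] [IsFF k K]

lemma mem_LL_iff {D : Place k K →₀ ℤ} {f : K} : f ∈ LL D ↔ ∀ P : Place k K, f ∈ ge P (-D P) := by
  rw [mem_LL]
  constructor
  · rintro (h | h) P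
    · exact Or.inl h
    · exact Or.inr (h P)
  · intro h
    by_cases hf : f = 0
    · exact Or.inl hf
    · exact Or.inr fun P => (h P).resolve_left hf

/-- there are enough functionals -/
theorem exists_fun {x : K} (hx : Transcendental k x) (D : Place k K →₀ ℤ) :
    ∃ (r : ℕ) (l : Fin r → Module.Dual k K), LinearIndependent k l ∧
      (∀ i, ∀ h ∈ Bf (k := k) x, l i h = 0) ∧ (∀ i, ∀ h ∈ Bi (k := k) x, l i h = 0) ∧
      ddeg D - ell D + 1 ≤ r := by
  classical
  obtain ⟨m, z, hz, hD⟩ := exists_compare hx D
  have h1 : phi D ≤ phi (m • polar (k := k) x) := by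
    have h2 := phi_mono hD
    rwa [phi_add_divisor _ hz] at h2
  obtain ⟨γ, N, -, hγ⟩ := riemann k K
  have hx' : Transcendental k x⁻¹ := by
    intro h; apply hx; simpa using h.inv
  have hpos := ddeg_polar_pos hx'
  set M : ℕ := N.toNat with hM
  set G : Place k K →₀ ℤ := M • polar (k := k) x⁻¹ with hG
  set H : Place k K →₀ ℤ := m • polar (k := k) x with hH
  have hGd : N ≤ ddeg G := by
    rw [hG, ddeg_nsmul]
    have h3 : (M : ℤ) * 1 ≤ M * ddeg (polar (k := k) x⁻¹) :=
      mul_le_mul_of_nonneg_left (by omega) (by positivity)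
    omega
  have hH0 : 0 ≤ H := by
    intro P
    rw [hH, Finsupp.smul_apply, polar_apply]
    exact nsmul_nonneg (le_max_right _ _) m
  have hG0 : 0 ≤ G := by
    intro P
    rw [hG, Finsupp.smul_apply, polar_apply]
    exact nsmul_nonneg (le_max_right _ _) M
  have hHd : 0 ≤ ddeg H := ddeg_nonneg hH0
  have e1 : ell (G + H) = ddeg G + ddeg H - γ := by
    rw [hγ _ (by rw [ddeg_add]; omega), ddeg_add]
  have e2 : ell G = ddeg G - γ := hγ _ hGd
  have hHP : ∀ P : Place k K, 0 ≤ P.ord x → H P = 0 := by
    intro P hP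
    rw [hH, Finsupp.smul_apply, polar_apply, max_eq_right (by omega), smul_zero]
  have hGP : ∀ P : Place k K, P.ord x < 0 → G P = 0 := by
    intro P hP
    rw [hG, Finsupp.smul_apply, polar_apply, P.ord_inv, max_eq_right (by omega), smul_zero]
  -- the map to the cohomology
  let Q := K ⧸ (Bf (k := k) x ⊔ Bi (k := k) x)
  let q : K →ₗ[k] Q := (Bf (k := k) x ⊔ Bi (k := k) x).mkQ
  let φ : LL (G + H) →ₗ[k] Q := q.comp (LL (G + H)).subtype
  have hker : LinearMap.ker φ ≤ (LL G ⊔ LL H).comap (LL (G + H)).subtype := by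
    rintro ⟨f, hf⟩ h0
    rw [LinearMap.mem_ker] at h0
    have h2 : f ∈ Bf (k := k) x ⊔ Bi (k := k) x := by
      have h3 : q f = 0 := h0
      exact (Submodule.Quotient.mk_eq_zero _).1 h3
    obtain ⟨b, hb, b', hb', hbb⟩ := Submodule.mem_sup.1 h2
    show f ∈ LL G ⊔ LL H
    rw [mem_LL_iff] at hf
    refine Submodule.mem_sup.2 ⟨b', ?_, b, ?_, by rw [← hbb, add_comm]⟩
    · rw [mem_LL_iff]
      intro P
      rcases lt_or_ge (P.ord x) 0 with h | h
      · rw [hGP P h, neg_zero]
        exact hb' P h
      · have e3 : b' = f - b := by rw [← hbb]; ring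
        rw [e3]
        refine (ge P _).sub_mem ?_ (ge_mono ?_ (hb P h))
        · have h4 := hf P
          rwa [Finsupp.add_apply, hHP P h, add_zero] at h4
        · have := hG0 P
          simp only [Finsupp.coe_zero, Pi.zero_apply] at this
          omega
    · rw [mem_LL_iff]
      intro P
      rcases lt_or_ge (P.ord x) 0 with h | h
      · have e3 : b = f - b' := by rw [← hbb]; ring
        rw [e3]
        refine (ge P _).sub_mem ?_ (ge_mono ?_ (hb' P h))
        · have h4 := hf P
          rwa [Finsupp.add_apply, hGP P h, zero_add] at h4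
        · have := hH0 P
          simp only [Finsupp.coe_zero, Pi.zero_apply] at this
          omega
      · rw [hHP P h, neg_zero]
        exact hb P h
  have hone : (1 : ℤ) ≤ finrank k (LL G ⊓ LL H : Submodule k K) := by
    have h3 : (1 : K) ∈ (LL G ⊓ LL H : Submodule k K) := by
      refine Submodule.mem_inf.2 ⟨?_, ?_⟩
      · rw [mem_LL_iff]
        intro P
        right
        have := hG0 P
        simp only [Finsupp.coe_zero, Pi.zero_apply] at this
        rw [P.ord_one]
        omega
      · rw [mem_LL_iff]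
        intro P
        right
        have := hH0 P
        simp only [Finsupp.coe_zero, Pi.zero_apply] at this
        rw [P.ord_one]
        omega
    have h4 : 0 < finrank k (LL G ⊓ LL H : Submodule k K) := by
      have : FiniteDimensional k (LL G ⊓ LL H : Submodule k K) :=
        Submodule.finiteDimensional_inf_left _ _
      rw [finrank_pos_iff_exists_ne_zero]
      exact ⟨⟨1, h3⟩, fun h => one_ne_zero (congrArg Subtype.val h)⟩
    exact_mod_cast h4
  have hsup := Submodule.finrank_sup_add_finrank_inf_eq (LL G) (LL H)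
  have hk1 : finrank k (LinearMap.ker φ) ≤ finrank k (LL G ⊔ LL H : Submodule k K) := by
    have h3 : (LinearMap.ker φ).map (LL (G + H)).subtype ≤ LL G ⊔ LL H := by
      rw [Submodule.map_le_iff_le_comap]
      exact hker
    have : FiniteDimensional k (LL G ⊔ LL H : Submodule k K) := Submodule.finiteDimensional_sup _ _
    have h4 := Submodule.finrank_mono h3
    have h5 : finrank k ((LinearMap.ker φ).map (LL (G + H)).subtype) =
        finrank k (LinearMap.ker φ) := Submodule.finrank_map_subtype_eq _ _
    omega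
  have hrn := LinearMap.finrank_range_add_finrank_ker φ
  set r := finrank k (LinearMap.range φ) with hr
  have hrD : ddeg D - ell D + 1 ≤ r := by
    unfold phi at h1
    unfold ell at e1 e2 h1 ⊢
    omega
  -- the functionals
  have hfd : FiniteDimensional k (LinearMap.range φ) := inferInstance
  let b : Basis (Fin r) k (LinearMap.range φ) := finBasis k (LinearMap.range φ)
  choose l' hl' using fun i : Fin r => LinearMap.exists_extend (b.coord i)
  refine ⟨r, fun i => (l' i).comp q, ?_, ?_, ?_, hrD⟩
  · rw [Fintype.linearIndependent_iff]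
    intro g hg j
    obtain ⟨y, hy⟩ := Submodule.mkQ_surjective (Bf (k := k) x ⊔ Bi (k := k) x) (b j : Q)
    have h3 := congrArg (fun t : Module.Dual k K => t y) hg
    simp only [LinearMap.sum_apply, LinearMap.smul_apply, LinearMap.zero_apply,
      LinearMap.comp_apply] at h3
    have h4 : ∀ i, l' i (q y) = if j = i then 1 else 0 := by
      intro i
      have h5 : q y = (b j : Q) := hy
      rw [h5]
      have h6 := LinearMap.congr_fun (hl' i) (b j)
      rw [LinearMap.comp_apply] at h6
      have h7 : (LinearMap.range φ).subtype (b j) = (b j : Q) := rfl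
      rw [h7] at h6
      rw [h6, Basis.coord_apply, Basis.repr_self, Finsupp.single_apply]
    simp only [h4] at h3
    simpa using h3
  · intro i h hh
    have h3 : q h = 0 := (Submodule.Quotient.mk_eq_zero _).2 (Submodule.mem_sup_left hh)
    rw [LinearMap.comp_apply, h3, map_zero]
  · intro i h hh
    have h3 : q h = 0 := (Submodule.Quotient.mk_eq_zero _).2 (Submodule.mem_sup_right hh)
    rw [LinearMap.comp_apply, h3, map_zero]

end

end Pool.Agent.Helper21.CP.Gen
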