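import Pool.Graph.R_seed8.Helper386.D5V.Helper386_FF_Riemann

/-!
# Elements with integral traces: the tame bound at one place
-/

set_option autoImplicit false
set_option linter.overlappingInstances false
set_option linter.unusedSectionVars false

open Module IsDedekindDomain

namespace Pool.Agent.Helper21.CP.Gen

open FF

/-- in characteristic zero an element all of whose multiples have trace zero is nilpotent -/
theorem nilp {κ R : Type*} [Field κ] [CharZero κ] [CommRing R] [Algebra κ R]
    [FiniteDimensional κ R] (x : R) (h : ∀ c, Algebra.trace κ R (x * c) = 0) :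
    IsNilpotent x := by
  have hA : IsArtinianRing R := IsArtinianRing.of_finite κ R
  obtain ⟨n, y, hy⟩ := IsArtinian.exists_pow_succ_smul_dvd x (1 : R)
  have h1 : x ^ (n + 1) * y = x ^ n := by
    have := hy
    simp only [smul_eq_mul, mul_one] at this
    exact this
  set N := n + 1 with hN
  have h2 : x ^ (N + 1) * y = x ^ N := by
    rw [hN, pow_succ x (n + 1), mul_right_comm, h1, ← pow_succ]
  have h3 : ∀ m, x ^ (N + m) * y ^ m = x ^ N := by
    intro m
    induction m with
    | zero => simp
    | succ m ih =>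
      have e1 : x ^ (N + (m + 1)) * y ^ (m + 1) = x ^ m * (x ^ (N + 1) * y) * y ^ m := by ring
      rw [e1, h2, ← pow_add, add_comm m N, ih]
  set ε := x ^ N * y ^ N with hε
  have hεε : ε * ε = ε := by
    have e1 : ε * ε = (x ^ (N + N) * y ^ N) * y ^ N := by rw [hε]; ring
    rw [e1, h3]
  have htr : Algebra.trace κ R ε = 0 := by
    have e1 : ε = x * (x ^ n * y ^ N) := by
      rw [hε, hN, pow_succ']
      ring
    rw [e1]
    exact h _
  have hproj : LinearMap.IsProj (LinearMap.range (LinearMap.mulLeft κ ε)) (LinearMap.mulLeft κ ε) :=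
    ⟨fun z => ⟨z, rfl⟩, by
      rintro _ ⟨z, rfl⟩
      show ε * (ε * z) = ε * z
      rw [← mul_assoc, hεε]⟩
  have h4 := hproj.trace
  have h5 : LinearMap.trace κ R (LinearMap.mulLeft κ ε) = 0 := htr
  rw [h5] at h4
  have h6 : finrank κ (LinearMap.range (LinearMap.mulLeft κ ε)) = 0 := by
    exact_mod_cast h4.symm
  have h7 : LinearMap.range (LinearMap.mulLeft κ ε) = ⊥ := Submodule.finrank_eq_zero.1 h6
  have h8 : ε = 0 := by
    have : ε ∈ LinearMap.range (LinearMap.mulLeft κ ε) := ⟨1, by simp⟩
    rw [h7] at this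
    exact this
  refine ⟨N, ?_⟩
  have h9 := h3 N
  have e1 : x ^ (N + N) * y ^ N = x ^ N * ε := by rw [hε]; ring
  rw [e1, h8, mul_zero] at h9
  exact h9.symm

section

variable {k A L : Type*} (K0 : Type*) [Field k] [CommRing A] [IsDedekindDomain A] [Algebra k A]
  [Field K0] [Algebra A K0] [IsFractionRing A K0] [Field L] [Algebra K0 L] [Algebra A L]
  [IsScalarTower A K0 L] [FiniteDimensional K0 L] [Algebra.IsSeparable K0 L]
  [Algebra k L] [IsScalarTower k A L] [CharZero k]

/-- the tame bound -/
theorem tame (π : A) (hπ : π ≠ 0) (hmax : (Ideal.span {π}).IsMaximal) (w : Place k L)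
    (hA : ∀ a : A, w.Reg (algebraMap A L a)) (hw : 0 < w.ord (algebraMap A L π)) (F : L)
    (hF0 : F ≠ 0)
    (hF : ∀ b : L, IsIntegral A b → ∃ a s : A, s ≠ 0 ∧ w.ord (algebraMap A L s) = 0 ∧
      algebraMap A K0 a = algebraMap A K0 s * Algebra.trace K0 L (F * b)) :
    -w.ord (algebraMap A L π) < w.ord F := by
  by_contra hc
  push Not at hc
  let B := integralClosure A L
  have : IsDedekindDomain B := integralClosure.isDedekindDomain A K0 L
  have : IsFractionRing B L := integralClosure.isFractionRing_of_finite_extension K0 L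
  have hfin : Module.Finite A B := IsIntegralClosure.finite A K0 L B
  have hsc : IsScalarTower k B L := by
    refine IsScalarTower.of_algebraMap_eq fun c => ?_
    rw [IsScalarTower.algebraMap_apply k A B, ← IsScalarTower.algebraMap_apply A B L,
      ← IsScalarTower.algebraMap_apply k A L]
  have hinj : Function.Injective (algebraMap A L) := by
    rw [IsScalarTower.algebraMap_eq A K0 L]
    exact (algebraMap K0 L).injective.comp (IsFractionRing.injective A K0)
  have htf : Module.IsTorsionFree A B := by
    have hinj' : Function.Injective (algebraMap A B) := by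
      intro a b h
      apply hinj
      rw [IsScalarTower.algebraMap_apply A B L, IsScalarTower.algebraMap_apply A B L, h]
    exact Module.isTorsionFree_iff_algebraMap_injective.2 hinj'
  have hreg : ∀ b : B, w.Reg (algebraMap B L b) := fun b => w.reg_of_isIntegral hA b.2
  obtain ⟨P, hP⟩ := exists_placeOf_eq (B := B) w hreg
  have hπL : algebraMap A L π ≠ 0 := by
    intro h
    exact hπ (hinj (h.trans (map_zero _).symm))
  set g : L := (algebraMap A L π * F)⁻¹ with hg
  have hg0 : g ≠ 0 := inv_ne_zero (mul_ne_zero hπL hF0)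
  have hgo : 0 ≤ w.ord g := by
    rw [hg, w.ord_inv, w.ord_mul hπL hF0]
    omega
  obtain ⟨n, d, hnd⟩ := P.exists_primeCompl_mul_eq_of_integer g
    ((placeOf_nonneg (k := k) P hg0).1 (by rw [hP]; exact hgo))
  have hd : algebraMap B L d = algebraMap A L π * (F * algebraMap B L n) := by
    have h1 : algebraMap B L d = g⁻¹ * (g * algebraMap B L d) := by
      rw [inv_mul_cancel_left₀ hg0]
    rw [h1, hnd, hg, inv_inv, mul_assoc]
  -- the traces
  have htr : ∀ b : B, ∃ a s : A, s ≠ 0 ∧ w.ord (algebraMap A L s) = 0 ∧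
      s * Algebra.intTrace A B (d * b) = π * a := by
    intro b
    obtain ⟨a, s, hs0, hs, ha⟩ := hF (algebraMap B L (n * b)) (n * b).2
    refine ⟨a, s, hs0, hs, ?_⟩
    apply IsFractionRing.injective A K0
    have e1 : algebraMap B L ((d : B) * b) =
        algebraMap A L π * (F * algebraMap B L (n * b)) := by
      rw [map_mul, hd, map_mul]
      ring
    have e2 : Algebra.trace K0 L (algebraMap A L π * (F * algebraMap B L (n * b))) =
        algebraMap A K0 π * Algebra.trace K0 L (F * algebraMap B L (n * b)) := by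
      rw [IsScalarTower.algebraMap_apply A K0 L, ← Algebra.smul_def, map_smul, smul_eq_mul]
    rw [map_mul, Algebra.algebraMap_intTrace (A := A) (K := K0) (L := L) (B := B), e1, e2]
    rw [map_mul (algebraMap A K0) π a, ha]
    ring
  -- the quotient
  set p : Ideal A := Ideal.span {π} with hp
  have hmax' : p.IsMaximal := hmax
  let instF : Field (A ⧸ p) := Ideal.Quotient.field p
  have hchar : CharZero (A ⧸ p) :=
    charZero_of_injective_algebraMap (algebraMap k (A ⧸ p)).injective
  have hfin2 : Module.Finite (A ⧸ p) (B ⧸ p.map (algebraMap A B)) := inferInstance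
  have hnil : IsNilpotent (Ideal.Quotient.mk (p.map (algebraMap A B)) (d : B)) := by
    apply nilp (κ := A ⧸ p)
    intro c
    obtain ⟨c, rfl⟩ := Ideal.Quotient.mk_surjective c
    rw [← map_mul]
    rw [Algebra.trace_quotient_eq_of_isDedekindDomain]
    obtain ⟨a, s, hs0, hs, ha⟩ := htr c
    have hsp : s ∉ p := by
      intro h1
      rw [hp, Ideal.mem_span_singleton] at h1
      obtain ⟨t, rfl⟩ := h1
      have ht0 : algebraMap A L t ≠ 0 := by
        intro h2
        exact hs0 (by rw [hinj (h2.trans (map_zero _).symm), mul_zero])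
      rw [map_mul, w.ord_mul hπL ht0] at hs
      have := (w.reg_iff ht0).1 (hA t)
      omega
    rw [Ideal.Quotient.eq_zero_iff_mem]
    have h1 : s * Algebra.intTrace A B (d * c) ∈ p := by
      rw [ha, hp, Ideal.mem_span_singleton]
      exact dvd_mul_right _ _
    exact (hmax'.isPrime.mem_or_mem h1).resolve_left hsp
  obtain ⟨m, hm⟩ := hnil
  rw [← map_pow, Ideal.Quotient.eq_zero_iff_mem, hp, Ideal.map_span, Set.image_singleton,
    Ideal.mem_span_singleton] at hm
  obtain ⟨b, hb⟩ := hm
  have hπP : algebraMap A B π ∈ P.asIdeal := by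
    rw [← placeOf_red_eq_zero (k := k) (L := L) P, hP, Place.red_eq_zero_iff _ (hreg _),
      ← IsScalarTower.algebraMap_apply A B L]
    exact Or.inr hw
  have hdP : (d : B) ^ m ∈ P.asIdeal := by
    rw [hb]
    exact P.asIdeal.mul_mem_right _ hπP
  exact d.2 (P.isPrime.mem_of_pow_mem m hdP)

end

end Pool.Agent.Helper21.CP.Gen
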