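import Pool.Agent.Helper21.CP.Gen1
import Pool.Agent.Helper21.CP.Loc

/-!
# The generating polynomial of a functional
-/

set_option autoImplicit false
set_option linter.overlappingInstances false
set_option linter.unusedSectionVars false

open Module Polynomial IntermediateField

namespace Pool.Agent.Helper21.CP.Gen

open FF

section basics

variable {k K : Type*} [Field k] [Field K] [Algebra k K]

lemma x_ne_zero {x : K} (hx : Transcendental k x) : x ≠ 0 := by
  rintro rfl
  exact hx isAlgebraic_zero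

lemma aeval_ne_zero {x : K} (hx : Transcendental k x) {p : k[X]} (hp : p ≠ 0) :
    aeval x p ≠ 0 := by
  intro h
  exact hp (transcendental_iff.1 hx p h)

lemma reg_aeval {P : Place k K} {y : K} (hy : P.Reg y) (p : k[X]) : P.Reg (aeval y p) := by
  induction p using Polynomial.induction_on with
  | C a => rw [aeval_C]; exact P.reg_const a
  | add p q hp hq => rw [map_add]; exact P.reg_add hp hq
  | monomial n a h =>
    rw [pow_succ, ← mul_assoc, map_mul, aeval_X]
    exact P.reg_mul h hy

lemma red_aeval {P : Place k K} {y : K} (hy : P.Reg y) (p : k[X]) :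
    P.red (aeval y p) = aeval (P.red y) p := by
  induction p using Polynomial.induction_on with
  | C a => rw [aeval_C, aeval_C]; rfl
  | add p q hp hq => rw [map_add, P.red_add (reg_aeval hy p) (reg_aeval hy q), hp, hq, map_add]
  | monomial n a h =>
    rw [pow_succ, ← mul_assoc, map_mul (aeval y) (C a * X ^ n) X, aeval_X,
      P.red_mul (reg_aeval hy _) hy, h, map_mul (aeval (P.red y)) (C a * X ^ n) X, aeval_X]

lemma reg_adjoin {P : Place k K} {y : K} (hy : P.Reg y) (a : Algebra.adjoin k {y}) :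
    P.Reg (algebraMap (Algebra.adjoin k {y}) K a) := by
  obtain ⟨a, ha⟩ := a
  change P.Reg a
  rw [Algebra.adjoin_singleton_eq_range_aeval] at ha
  obtain ⟨p, rfl⟩ := ha
  exact reg_aeval hy p

lemma aeval_mem_Bf {x : K} (p : k[X]) : aeval x p ∈ Bf (k := k) x := by
  intro P hP
  rw [mem_ge_zero]
  exact reg_aeval (Or.inr hP) p

lemma x_mem_Bf (x : K) : x ∈ Bf (k := k) x := by
  intro P hP
  exact Or.inr hP

lemma refl_eq {x : K} (hx0 : x ≠ 0) (p : k[X]) {d : ℕ} (hd : p.natDegree ≤ d) :
    x⁻¹ ^ d * aeval x p = aeval x⁻¹ (p.reflect d) := by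
  have inst : Invertible x := invertibleOfNonzero hx0
  have h1 := Polynomial.eval₂_reflect_mul_pow (algebraMap k K) x d p hd
  rw [invOf_eq_inv] at h1
  rw [aeval_def, aeval_def, ← h1, inv_pow]
  field_simp

lemma aeval_inv_mem_Bi {x : K} (p : k[X]) : aeval x⁻¹ p ∈ Bi (k := k) x := by
  intro P hP
  rw [mem_ge_zero]
  exact reg_aeval (Or.inr (by rw [P.ord_inv]; omega)) p

lemma inv_pow_mul_mem_Bi {x : K} (hx0 : x ≠ 0) (p : k[X]) {d : ℕ} (hd : p.natDegree ≤ d) :
    x⁻¹ ^ d * aeval x p ∈ Bi (k := k) x := by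
  rw [refl_eq hx0 p hd]
  exact aeval_inv_mem_Bi _

end basics

section

variable {k K : Type*} [Field k] [Field K] [Algebra k K] [CharZero k] [IsFF k K]

lemma exists_bd {x : K} (hx : Transcendental k x) (h : K) :
    ∃ N : ℕ, ∀ j, N ≤ j → x⁻¹ ^ j * h ∈ Bi (k := k) x := by
  classical
  obtain ⟨S, hS, -⟩ := poles (k := k) hx
  have hx0 := x_ne_zero hx
  by_cases hh : h = 0
  · refine ⟨0, fun j _ => ?_⟩
    rw [hh, mul_zero]
    exact (Bi (k := k) x).zero_mem
  · refine ⟨∑ P ∈ S, (-P.ord h).toNat, fun j hj P hP => Or.inr ?_⟩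
    have h1 : (-P.ord h).toNat ≤ ∑ P ∈ S, (-P.ord h).toNat :=
      Finset.single_le_sum (f := fun P : Place k K => (-P.ord h).toNat)
        (fun _ _ => Nat.zero_le _) ((hS P).2 hP)
    rw [P.ord_mul (pow_ne_zero _ (inv_ne_zero hx0)) hh, P.ord_pow, P.ord_inv]
    have h2 : (j : ℤ) * 1 ≤ j * (-P.ord x) := mul_le_mul_of_nonneg_left (by omega) (by positivity)
    omega

/-- the bound -/
noncomputable def NN {x : K} (hx : Transcendental k x) (h : K) : ℕ := (exists_bd hx h).choose

lemma NN_spec {x : K} (hx : Transcendental k x) (h : K) {j : ℕ} (hj : NN hx h ≤ j) :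
    x⁻¹ ^ j * h ∈ Bi (k := k) x := (exists_bd hx h).choose_spec j hj

/-- the generating polynomial of the values `l (x ^ (-j-1) h)` -/
noncomputable def T {x : K} (hx : Transcendental k x) (h : K) : Module.Dual k K →ₗ[k] k[X] :=
  ∑ j ∈ Finset.range (NN hx h), (Polynomial.monomial j).comp
    (Module.Dual.eval k K (x⁻¹ ^ (j + 1) * h))

lemma coeff_T {x : K} (hx : Transcendental k x) {l : Module.Dual k K}
    (hl : ∀ h ∈ Bi (k := k) x, l h = 0) (h : K) (j : ℕ) :
    (T hx h l).coeff j = l (x⁻¹ ^ (j + 1) * h) := by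
  rw [T, LinearMap.sum_apply, Polynomial.finsetSum_coeff]
  have h1 : ∀ i ∈ Finset.range (NN hx h),
      (((Polynomial.monomial i).comp (Module.Dual.eval k K (x⁻¹ ^ (i + 1) * h))) l).coeff j =
      if i = j then l (x⁻¹ ^ (j + 1) * h) else 0 := by
    intro i _
    rw [LinearMap.comp_apply, Module.Dual.eval_apply, Polynomial.coeff_monomial]
    split_ifs with hij
    · rw [hij]
    · rfl
  rw [Finset.sum_congr rfl h1, Finset.sum_ite_eq']
  split_ifs with hj
  · rfl
  · rw [hl]
    apply NN_spec hx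
    rw [Finset.mem_range] at hj
    omega

lemma T_add {x : K} (hx : Transcendental k x) {l : Module.Dual k K}
    (hl : ∀ h ∈ Bi (k := k) x, l h = 0) (g h : K) : T hx (g + h) l = T hx g l + T hx h l := by
  ext j
  rw [coeff_T hx hl, Polynomial.coeff_add, coeff_T hx hl, coeff_T hx hl, mul_add, map_add]

lemma T_zero {x : K} (hx : Transcendental k x) {l : Module.Dual k K}
    (hl : ∀ h ∈ Bi (k := k) x, l h = 0) : T hx 0 l = 0 := by
  ext j
  rw [coeff_T hx hl, mul_zero, map_zero, Polynomial.coeff_zero]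

lemma T_sum {x : K} (hx : Transcendental k x) {l : Module.Dual k K}
    (hl : ∀ h ∈ Bi (k := k) x, l h = 0) {ι : Type*} (s : Finset ι) (g : ι → K) :
    T hx (∑ i ∈ s, g i) l = ∑ i ∈ s, T hx (g i) l := by
  classical
  induction s using Finset.induction_on with
  | empty => rw [Finset.sum_empty, Finset.sum_empty, T_zero hx hl]
  | insert a s ha ih => rw [Finset.sum_insert ha, Finset.sum_insert ha, T_add hx hl, ih]

lemma T_aeval {x : K} (hx : Transcendental k x) {l : Module.Dual k K}
    (hl : ∀ h ∈ Bi (k := k) x, l h = 0) (hl' : ∀ h ∈ Bf (k := k) x, l h = 0) {h : K}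
    (hh : h ∈ Bf (k := k) x) (p : k[X]) : T hx (aeval x p * h) l = p * T hx h l := by
  have hx0 := x_ne_zero hx
  induction p using Polynomial.induction_on with
  | C a =>
    ext j
    rw [coeff_T hx hl, Polynomial.coeff_C_mul, coeff_T hx hl, aeval_C, ← Algebra.smul_def,
      mul_smul_comm, map_smul, smul_eq_mul]
  | add p q hp hq => rw [map_add, add_mul, T_add hx hl, hp, hq, add_mul]
  | monomial n a hi =>
    have e1 : (Polynomial.C a * X ^ (n + 1) : k[X]) = (Polynomial.C a * X ^ n) * X := by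
      rw [pow_succ, mul_assoc]
    set q : k[X] := Polynomial.C a * X ^ n with hq
    have e2 : aeval x (q * X) * h = x * (aeval x q * h) := by
      rw [map_mul, aeval_X]
      ring
    have e3 : q * X * T hx h l = X * (q * T hx h l) := by ring
    rw [e1, e2, e3, ← hi]
    have hg : aeval x q * h ∈ Bf (k := k) x := Bf_mul (aeval_mem_Bf q) hh
    set g := aeval x q * h with hgdef
    ext j
    rw [coeff_T hx hl]
    cases j with
    | zero =>
      rw [Polynomial.coeff_X_mul_zero]
      have e4 : x⁻¹ ^ (0 + 1) * (x * g) = g := by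
        rw [zero_add, pow_one]
        field_simp
      rw [e4]
      exact hl' g hg
    | succ j =>
      rw [Polynomial.coeff_X_mul, coeff_T hx hl]
      have e4 : x⁻¹ ^ (j + 1 + 1) * (x * g) = x⁻¹ ^ (j + 1) * g := by
        rw [pow_succ]
        field_simp
      rw [e4]

end

end Pool.Agent.Helper21.CP.Gen
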