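import Pool.Agent.Helper21.CP.Gen2

/-!
# The form attached to a functional
-/

set_option autoImplicit false
set_option linter.overlappingInstances false
set_option linter.unusedSectionVars false

open Module Polynomial IntermediateField

namespace Pool.Agent.Helper21.CP.Gen

open FF

section

variable {k K : Type*} [Field k] [Field K] [Algebra k K]

/-- the trace to an intermediate field, as an element of the big field -/
noncomputable def tr (F : IntermediateField k K) (g : K) : K := (Algebra.trace F K g : F)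

lemma tr_eq {F F' : IntermediateField k K} (h : F = F') (g : K) : tr F g = tr F' g := by
  subst h; rfl

lemma tr_smul (F : IntermediateField k K) (c : F) (g : K) : tr F ((c : K) * g) = c * tr F g := by
  unfold tr
  have h1 : (c : K) * g = c • g := rfl
  rw [h1, map_smul, smul_eq_mul, IntermediateField.coe_mul]

lemma tr_mul {F : IntermediateField k K} {c : K} (hc : c ∈ F) (g : K) :
    tr F (c * g) = c * tr F g := tr_smul F ⟨c, hc⟩ g

lemma tr_add (F : IntermediateField k K) (f g : K) : tr F (f + g) = tr F f + tr F g := by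
  unfold tr
  rw [map_add]; rfl

lemma tr_sum (F : IntermediateField k K) {ι : Type*} (s : Finset ι) (g : ι → K) :
    tr F (∑ i ∈ s, g i) = ∑ i ∈ s, tr F (g i) := by
  unfold tr
  rw [map_sum]
  exact map_sum (algebraMap F K) _ _

lemma exists_poly {x a : K} (ha : a ∈ Algebra.adjoin k {x}) : ∃ p : k[X], aeval x p = a := by
  rw [Algebra.adjoin_singleton_eq_range_aeval] at ha
  exact ha

lemma aeval_mem_adjoin (x : K) (p : k[X]) : aeval x p ∈ k⟮x⟯ := by
  have h1 : aeval x p = algebraMap k⟮x⟯ K (aeval (AdjoinSimple.gen k x) p) := by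
    rw [← aeval_algebraMap_apply]
    rfl
  rw [h1]
  exact (aeval (AdjoinSimple.gen k x) p : k⟮x⟯).2

end

section

variable {k K : Type*} [Field k] [Field K] [Algebra k K] [CharZero k] [IsFF k K]

theorem exists_form {x : K} (hx : Transcendental k x) :
    ∃ Φ : Module.Dual k K →ₗ[k] K, ∀ l : Module.Dual k K, (∀ h ∈ Bi (k := k) x, l h = 0) →
      (∀ h ∈ Bf (k := k) x, l h = 0) → ∀ h ∈ Bf (k := k) x,
        tr k⟮x⟯ (Φ l * h) = aeval x (T hx h l) := by
  open scoped algebraAdjoinAdjoin in
  classical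
  let A := Algebra.adjoin k {x}
  have hfin := IsFF.finite hx
  have hx0 := x_ne_zero hx
  have hchar : CharZero k⟮x⟯ := charZero_of_injective_algebraMap (algebraMap k k⟮x⟯).injective
  have hsep : Algebra.IsSeparable k⟮x⟯ K := inferInstance
  obtain ⟨s, b, hb⟩ := FiniteDimensional.exists_is_basis_integral A k⟮x⟯ K
  have hbf : ∀ i, b i ∈ Bf (k := k) x := by
    intro i P hP
    rw [mem_ge_zero]
    exact P.reg_of_isIntegral (reg_adjoin (Or.inr hP)) (hb i)
  have hnd := traceForm_nondegenerate k⟮x⟯ K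
  let b' := (Algebra.traceForm k⟮x⟯ K).dualBasis hnd b
  have hb' : ∀ i j, tr k⟮x⟯ (b' i * b j) = if j = i then 1 else 0 := by
    intro i j
    have h1 : Algebra.trace k⟮x⟯ K (b' i * b j) = if j = i then 1 else 0 :=
      LinearMap.BilinForm.apply_dualBasis_left hnd b i j
    unfold tr
    rw [h1]
    split_ifs <;> rfl
  let Φ : Module.Dual k K →ₗ[k] K :=
    ∑ i, (LinearMap.mulRight k (b' i)).comp ((aeval x).toLinearMap.comp (T hx (b i)))
  have hΦ : ∀ l, Φ l = ∑ i, aeval x (T hx (b i) l) * b' i := by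
    intro l
    simp only [Φ, LinearMap.sum_apply, LinearMap.comp_apply, LinearMap.mulRight_apply]
    rfl
  have hΦb : ∀ l j, tr k⟮x⟯ (Φ l * b j) = aeval x (T hx (b j) l) := by
    intro l j
    rw [hΦ, Finset.sum_mul, tr_sum]
    have h1 : ∀ i ∈ Finset.univ, tr k⟮x⟯ (aeval x (T hx (b i) l) * b' i * b j) =
        if j = i then aeval x (T hx (b j) l) else 0 := by
      intro i _
      rw [mul_assoc, tr_mul (aeval_mem_adjoin x _), hb']
      split_ifs with h
      · rw [mul_one, h]
      · rw [mul_zero]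
    rw [Finset.sum_congr rfl h1, Finset.sum_ite_eq]
    simp
  refine ⟨Φ, fun l hl hl' h hh => ?_⟩
  obtain ⟨c, hc⟩ := IsLocalization.exist_integer_multiples_of_finite (nonZeroDivisors A)
    (fun i => b.repr h i)
  choose a ha using hc
  have hpol : ∀ a : A, ∃ p : k[X], aeval x p = (a : K) := fun a => exists_poly a.2
  choose r hr using fun i => hpol (a i)
  obtain ⟨q, hq⟩ := hpol c
  have hc0 : aeval x q ≠ 0 := by
    rw [hq]
    intro h0
    exact nonZeroDivisors.ne_zero c.2 (Subtype.ext h0)
  -- the relation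
  have e1 : ∀ i, aeval x (r i) = aeval x q * (b.repr h i : K) := by
    intro i
    rw [hr, hq]
    have h1 := congrArg (algebraMap k⟮x⟯ K) (ha i)
    rw [Algebra.smul_def, map_mul] at h1
    exact h1
  have e2 : aeval x q * h = ∑ i, aeval x (r i) * b i := by
    conv_lhs => rw [← b.sum_repr h, Finset.mul_sum]
    refine Finset.sum_congr rfl fun i _ => ?_
    rw [e1, mul_assoc]
    rfl
  have e3 : aeval x q * tr k⟮x⟯ (Φ l * h) = aeval x q * aeval x (T hx h l) := by
    rw [← tr_mul (aeval_mem_adjoin x _), ← map_mul, ← T_aeval hx hl hl' hh q, e2, T_sum hx hl,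
      map_sum, mul_left_comm, e2, Finset.mul_sum, tr_sum]
    refine Finset.sum_congr rfl fun i _ => ?_
    rw [T_aeval hx hl hl' (hbf i), map_mul, mul_left_comm, tr_mul (aeval_mem_adjoin x _), hΦb]
  exact mul_left_cancel₀ hc0 e3

/-- the form determines the functional -/
theorem eq_zero_of_form {x : K} (hx : Transcendental k x) {l : Module.Dual k K}
    (hl : ∀ h ∈ Bi (k := k) x, l h = 0) (hl' : ∀ h ∈ Bf (k := k) x, l h = 0)
    (hT : ∀ h ∈ Bf (k := k) x, T hx h l = 0) : l = 0 := by
  have hx0 := x_ne_zero hx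
  have h1 : ∀ h ∈ Bf (k := k) x, ∀ j : ℕ, l (x⁻¹ ^ j * h) = 0 := by
    intro h hh j
    cases j with
    | zero => rw [pow_zero, one_mul]; exact hl' h hh
    | succ j => rw [← coeff_T hx hl, hT h hh, Polynomial.coeff_zero]
  ext g
  rw [LinearMap.zero_apply]
  -- a multiple of g
  obtain ⟨a, ha0, ha⟩ : ∃ a : k[X], a ≠ 0 ∧ aeval x a * g ∈ Bf (k := k) x := by
    open scoped algebraAdjoinAdjoin in
    let A := Algebra.adjoin k {x}
    have hfin := IsFF.finite hx
    have halg : Algebra.IsAlgebraic A K := Algebra.IsAlgebraic.trans A k⟮x⟯ K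
    obtain ⟨⟨y, hyA⟩, hy0, hy⟩ := (halg.isAlgebraic g).exists_integral_multiple
    obtain ⟨a, rfl⟩ := exists_poly (k := k) hyA
    refine ⟨a, ?_, ?_⟩
    · rintro rfl
      apply hy0
      apply Subtype.ext
      exact map_zero _
    · intro P hP
      rw [mem_ge_zero]
      exact P.reg_of_isIntegral (reg_adjoin (Or.inr hP)) hy
  set d := a.natDegree with hd
  set N := d + NN hx g with hN
  have h2 : (X : k[X]) ^ N = a * (X ^ N / a) + X ^ N % a := (EuclideanDomain.div_add_mod _ _).symm
  set q := (X : k[X]) ^ N / a with hq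
  set r := (X : k[X]) ^ N % a with hr
  have hrd : r.natDegree ≤ d := by
    rw [hd]
    by_cases hr0 : r = 0
    · rw [hr0]; simp
    · have : r.degree < a.degree := EuclideanDomain.mod_lt _ ha0
      exact (Polynomial.natDegree_lt_natDegree hr0 this).le
  have h3 : g = x⁻¹ ^ N * (aeval x q * (aeval x a * g)) +
      (x⁻¹ ^ d * aeval x r) * (x⁻¹ ^ (NN hx g) * g) := by
    have h4 := congrArg (aeval x) h2
    rw [map_pow, aeval_X, map_add, map_mul] at h4
    have h5 : x⁻¹ ^ N * x ^ N = 1 := by
      rw [← mul_pow, inv_mul_cancel₀ hx0, one_pow]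
    calc g = x⁻¹ ^ N * x ^ N * g := by rw [h5, one_mul]
      _ = x⁻¹ ^ N * (aeval x a * aeval x q + aeval x r) * g := by rw [h4]
      _ = _ := by rw [hN, pow_add]; ring
  rw [h3, map_add, h1 _ (Bf_mul (aeval_mem_Bf q) ha), hl, add_zero]
  exact Bi_mul (inv_pow_mul_mem_Bi hx0 r hrd) (NN_spec hx g le_rfl)

end

end Pool.Agent.Helper21.CP.Gen
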