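import Pool.Agent.Helper21.CP.Gen3

/-!
# Local bounds for the forms
-/

set_option autoImplicit false
set_option linter.overlappingInstances false
set_option linter.unusedSectionVars false

open Module Polynomial IntermediateField

namespace Pool.Agent.Helper21.CP.Gen

open FF

section

variable {k K : Type*} [Field k] [Field K] [Algebra k K] [CharZero k] [IsFF k K]

theorem tame_adj {y : K} (hy : Transcendental k y) {w : Place k K} (hw : 0 ≤ w.ord y) {q : k[X]}
    (hq : Irreducible q) (hwq : 0 < w.ord (aeval y q)) {F : K} (hF0 : F ≠ 0)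
    (hF : ∀ b ∈ Bf (k := k) y, ∃ p s : k[X], s ≠ 0 ∧ w.ord (aeval y s) = 0 ∧
      aeval y p = aeval y s * tr k⟮y⟯ (F * b)) : -w.ord (aeval y q) < w.ord F := by
  open scoped algebraAdjoinAdjoin in
  let A := Algebra.adjoin k {y}
  let e := Polynomial.algEquivOfTranscendental k y hy
  have hpid : IsPrincipalIdealRing A := IsPrincipalIdealRing.of_surjective e.toRingEquiv e.surjective
  have hded : IsDedekindDomain A := inferInstance
  have hfin := IsFF.finite hy
  have hchar : CharZero k⟮y⟯ := charZero_of_injective_algebraMap (algebraMap k k⟮y⟯).injective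
  have hsep : Algebra.IsSeparable k⟮y⟯ K := inferInstance
  have he : ∀ p : k[X], algebraMap A K (e p) = aeval y p := by
    intro p
    have h1 : ((algebraMap A K : A →+* K).comp (e.toRingEquiv.toRingHom : k[X] →+* A)) =
        (aeval y : k[X] →ₐ[k] K).toRingHom := by
      apply Polynomial.ringHom_ext
      · intro a
        change ((e (C a) : A) : K) = aeval y (C a)
        rw [aeval_C]
        have h2 : e (C a) = algebraMap k A a := e.commutes a
        rw [h2]
        rfl
      · change ((e X : A) : K) = aeval y X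
        rw [aeval_X, Polynomial.algEquivOfTranscendental_apply_X k y hy]
    exact congrArg (fun f : k[X] →+* K => f p) h1
  have hmax : (Ideal.span {e q}).IsMaximal := by
    have h1 : (Ideal.span {q}).IsMaximal := PrincipalIdealRing.isMaximal_of_irreducible hq
    have h2 : Ideal.span {e q} = Ideal.map e.toRingEquiv.toRingHom (Ideal.span {q}) := by
      rw [Ideal.map_span, Set.image_singleton]
      rfl
    rw [h2]
    exact Ideal.map_isMaximal_of_equiv e.toRingEquiv
  have hq0 : e q ≠ 0 := by
    intro h
    exact hq.ne_zero (e.injective (h.trans (map_zero e).symm))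
  have hreg : ∀ a : A, w.Reg (algebraMap A K a) := reg_adjoin (Or.inr hw)
  have key := tame (k := k) (A := A) (L := K) k⟮y⟯ (e q) hq0 hmax w hreg (by rw [he]; exact hwq)
    F hF0 (by
      intro b hb
      have hbB : b ∈ Bf (k := k) y := by
        intro P hP
        rw [mem_ge_zero]
        exact P.reg_of_isIntegral (reg_adjoin (Or.inr hP)) hb
      obtain ⟨p, s, hs0, hs, hps⟩ := hF b hbB
      refine ⟨e p, e s, ?_, ?_, ?_⟩
      · intro h
        exact hs0 (e.injective (h.trans (map_zero e).symm))
      · rw [he]; exact hs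
      · apply (algebraMap k⟮y⟯ K).injective
        have h1 : algebraMap k⟮y⟯ K (algebraMap A k⟮y⟯ (e p)) = algebraMap A K (e p) := rfl
        have h2 : algebraMap k⟮y⟯ K (algebraMap A k⟮y⟯ (e s)) = algebraMap A K (e s) := rfl
        rw [map_mul, h1, h2, he, he, hps]
        rfl)
  rwa [he] at key

/-- the minimal polynomial of the reduction of `x` -/
theorem exists_irr {x : K} (hx : Transcendental k x) {w : Place k K} (hw : 0 ≤ w.ord x) :
    ∃ q : k[X], Irreducible q ∧ 0 < w.ord (aeval x q) ∧ w.ord (aeval x (derivative q)) = 0 := by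
  have hreg : w.Reg x := Or.inr hw
  have hint : IsIntegral k (w.red x) := IsIntegral.of_finite k (w.red x)
  have hirr := minpoly.irreducible hint
  set q := minpoly k (w.red x) with hq
  refine ⟨q, hirr, ?_, ?_⟩
  · have h1 : w.red (aeval x q) = 0 := by
      rw [red_aeval hreg, hq, minpoly.aeval]
    rw [w.red_eq_zero_iff (reg_aeval hreg q)] at h1
    exact h1.resolve_left (aeval_ne_zero hx hirr.ne_zero)
  · have h1 : w.red (aeval x (derivative q)) ≠ 0 := by
      rw [red_aeval hreg]
      exact hirr.separable.aeval_derivative_ne_zero (minpoly.aeval k (w.red x))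
    have h2 := reg_aeval hreg (derivative q)
    have h3 : aeval x (derivative q) ≠ 0 := by
      intro h
      rw [h, w.red_zero] at h1
      exact h1 rfl
    have h4 := (w.reg_iff h3).1 h2
    rw [Ne, w.red_eq_zero_iff h2] at h1
    push Not at h1
    have h5 := h1.2
    omega

/-- the form at a finite place -/
theorem form_fin {x : K} (hx : Transcendental k x) {l : Module.Dual k K} {F : K} (hF0 : F ≠ 0)
    (hF : ∀ h ∈ Bf (k := k) x, tr k⟮x⟯ (F * h) = aeval x (T hx h l)) {w : Place k K}
    (hw : 0 ≤ w.ord x) {q : k[X]} (hq : Irreducible q) (hwq : 0 < w.ord (aeval x q)) :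
    -w.ord (aeval x q) < w.ord F := by
  refine tame_adj hx hw hq hwq hF0 fun b hb => ⟨T hx b l, 1, one_ne_zero, ?_, ?_⟩
  · rw [map_one, w.ord_one]
  · rw [map_one, one_mul, hF b hb]

/-- the form at a pole -/
theorem form_inf {x : K} (hx : Transcendental k x) {l : Module.Dual k K}
    (hl : ∀ h ∈ Bi (k := k) x, l h = 0) {F : K} (hF0 : F ≠ 0)
    (hF : ∀ h ∈ Bf (k := k) x, tr k⟮x⟯ (F * h) = aeval x (T hx h l)) {w : Place k K}
    (hw : w.ord x < 0) : -w.ord x < w.ord F := by
  have hx0 := x_ne_zero hx
  have hx' : Transcendental k x⁻¹ := by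
    intro h; apply hx; simpa using h.inv
  have key : -w.ord (aeval x⁻¹ (X : k[X])) < w.ord (x ^ 2 * F) := by
    refine tame_adj hx' (by rw [w.ord_inv]; omega) Polynomial.irreducible_X
      (by rw [aeval_X, w.ord_inv]; omega) (mul_ne_zero (pow_ne_zero _ hx0) hF0) fun b hb => ?_
    have hbi : b ∈ Bi (k := k) x := by
      intro P hP
      exact hb P (by rw [P.ord_inv]; omega)
    -- a multiple of b
    obtain ⟨a, ha0, ha⟩ : ∃ a : k[X], a ≠ 0 ∧ aeval x a * b ∈ Bf (k := k) x := by
      open scoped algebraAdjoinAdjoin in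
      let A := Algebra.adjoin k {x}
      have hfin := IsFF.finite hx
      have halg : Algebra.IsAlgebraic A K := Algebra.IsAlgebraic.trans A k⟮x⟯ K
      obtain ⟨⟨y, hyA⟩, hy0, hy⟩ := (halg.isAlgebraic b).exists_integral_multiple
      obtain ⟨a, rfl⟩ := exists_poly (k := k) hyA
      refine ⟨a, ?_, ?_⟩
      · rintro rfl
        apply hy0
        apply Subtype.ext
        exact map_zero _
      · intro P hP
        rw [mem_ge_zero]
        exact P.reg_of_isIntegral (reg_adjoin (Or.inr hP)) hy
    set p : k[X] := X ^ 2 * a with hp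
    have hp0 : p ≠ 0 := mul_ne_zero (pow_ne_zero _ Polynomial.X_ne_zero) ha0
    have hpb : aeval x p * b ∈ Bf (k := k) x := by
      have e1 : aeval x p * b = aeval x (X ^ 2 : k[X]) * (aeval x a * b) := by
        rw [hp, map_mul, mul_assoc]
      rw [e1]
      exact Bf_mul (aeval_mem_Bf _) ha
    obtain ⟨d, hd⟩ : ∃ d, p.natDegree = d + 2 := by
      refine ⟨a.natDegree, ?_⟩
      rw [hp, Polynomial.natDegree_mul (pow_ne_zero _ Polynomial.X_ne_zero) ha0,
        Polynomial.natDegree_X_pow, add_comm]
    set τ := T hx (aeval x p * b) l with hτ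
    have hτd : τ.natDegree ≤ d := by
      rw [Polynomial.natDegree_le_iff_coeff_eq_zero]
      intro j hj
      rw [hτ, coeff_T hx hl, ← mul_assoc]
      apply hl
      exact Bi_mul (inv_pow_mul_mem_Bi hx0 p (by omega)) hbi
    refine ⟨τ.reflect d, p.reflect (d + 2), ?_, ?_, ?_⟩
    · rw [Ne, Polynomial.reflect_eq_zero_iff]
      exact hp0
    · have hreg : w.Reg x⁻¹ := Or.inr (by rw [w.ord_inv]; omega)
      have h0 : w.red x⁻¹ = 0 := by
        rw [w.red_eq_zero_iff hreg]
        right
        rw [w.ord_inv]
        omega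
      have h1 : w.red (aeval x⁻¹ (p.reflect (d + 2))) ≠ 0 := by
        rw [red_aeval hreg, h0, ← Polynomial.coeff_zero_eq_aeval_zero', Polynomial.coeff_reflect,
          Polynomial.revAt_le (Nat.zero_le _), Nat.sub_zero, ← hd]
        intro h2
        exact hp0 (Polynomial.leadingCoeff_eq_zero.1
          ((map_eq_zero (algebraMap k w.RF)).1 h2))
      have h2 := reg_aeval hreg (p.reflect (d + 2))
      have h3 : aeval x⁻¹ (p.reflect (d + 2)) ≠ 0 := by
        intro h
        rw [h, w.red_zero] at h1
        exact h1 rfl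
      have h4 := (w.reg_iff h3).1 h2
      rw [Ne, w.red_eq_zero_iff h2] at h1
      push Not at h1
      have h5 := h1.2
      omega
    · rw [← refl_eq hx0 τ hτd, ← refl_eq hx0 p hd.le, tr_eq (adjoin_inv x)]
      have h1 : aeval x p * tr k⟮x⟯ (x ^ 2 * F * b) = x ^ 2 * aeval x τ := by
        rw [hτ, ← hF _ hpb, ← tr_mul (aeval_mem_adjoin x p),
          ← tr_mul (pow_mem (IntermediateField.mem_adjoin_simple_self k x) 2)]
        congr 1
        ring
      rw [mul_assoc, h1, pow_add]
      field_simp
  rw [aeval_X, w.ord_inv, w.ord_mul (pow_ne_zero _ hx0) hF0, w.ord_pow] at key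
  push_cast at key
  omega

end

end Pool.Agent.Helper21.CP.Gen
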