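import Pool.Graph.R_pool_sql_team_seeded_3dad9d7b.NH53.UF.CRD
import Pool.Graph.R_pool_sql_team_seeded_3dad9d7b.NH53.UF.COM
import Pool.Graph.R_pool_sql_team_seeded_3dad9d7b.NH53.UF.REG

/-!
# The orders of the coefficients of a combination along the vertical prime divisors
-/

set_option autoImplicit false
set_option linter.unusedSectionVars false

open FF Pool.Agent.W602.GT Pool.Agent.W603.LV Pool.Agent.Y172 Pool.Agent.NH31
open Pool.Agent.NH53.UF

namespace Pool.Agent.Helper21.CP

/-! ### Wronskians -/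

section words

variable {K : Type} [Field K] [Algebra ℂ K] {r s : ℕ} (δ : Fin r → Derivation ℂ K K)

/-- compositions of the derivations -/
def wd : List (Fin r) → K → K
  | [], f => f
  | i :: w, f => δ i (wd w f)

theorem wd_zero (w : List (Fin r)) : wd δ w 0 = 0 := by
  induction w with
  | nil => rfl
  | cons i w ih => rw [wd, ih, map_zero]

theorem wd_add (w : List (Fin r)) (f g : K) : wd δ w (f + g) = wd δ w f + wd δ w g := by
  induction w with
  | nil => rfl
  | cons i w ih => rw [wd, wd, wd, ih, map_add]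

theorem wd_sum {α : Type} (t : Finset α) (w : List (Fin r)) (f : α → K) :
    wd δ w (∑ a ∈ t, f a) = ∑ a ∈ t, wd δ w (f a) := by
  classical
  induction t using Finset.induction_on with
  | empty => rw [Finset.sum_empty, Finset.sum_empty, wd_zero]
  | insert a t ha ih => rw [Finset.sum_insert ha, Finset.sum_insert ha, wd_add, ih]

theorem wd_mul (w : List (Fin r)) {c : K} (hc : ∀ i, δ i c = 0) (f : K) :
    wd δ w (c * f) = c * wd δ w f := by
  induction w with
  | nil => rfl
  | cons i w ih =>
    rw [wd, wd, ih, Derivation.leibniz, hc, smul_zero, add_zero, smul_eq_mul]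

variable (F : IntermediateField ℂ K) (hF : ∀ f, (∀ i, δ i f = 0) → f ∈ F) (e : Fin s → K)
  (he : LinearIndependent F e)

include hF he

theorem ann_zero (a : Fin s → K) (ha : ∀ w, ∑ j, a j * wd δ w (e j) = 0) : a = 0 := by
  classical
  suffices H : ∀ (m : ℕ) (a : Fin s → K), (Finset.univ.filter fun j => a j ≠ 0).card ≤ m →
      (∀ w, ∑ j, a j * wd δ w (e j) = 0) → a = 0 from H _ a le_rfl ha
  intro m
  induction m with
  | zero =>
    intro a ha _
    rw [Nat.le_zero, Finset.card_eq_zero, Finset.filter_eq_empty_iff] at ha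
    funext j
    exact not_not.1 (ha (Finset.mem_univ j))
  | succ m ih =>
    intro a ha hw
    by_contra hne
    obtain ⟨j0, hj0⟩ : ∃ j, a j ≠ 0 := by
      by_contra hcon
      push Not at hcon
      exact hne (funext hcon)
    let a' : Fin s → K := fun j => (a j0)⁻¹ * a j
    have ha'0 : a' j0 = 1 := inv_mul_cancel₀ hj0
    have hw' : ∀ w, ∑ j, a' j * wd δ w (e j) = 0 := by
      intro w
      have h1 : ∑ j, a' j * wd δ w (e j) = (a j0)⁻¹ * ∑ j, a j * wd δ w (e j) := by
        rw [Finset.mul_sum]
        exact Finset.sum_congr rfl fun j _ => mul_assoc _ _ _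
      rw [h1, hw, mul_zero]
    have hder : ∀ i, (fun j => δ i (a' j)) = 0 := by
      intro i
      apply ih
      · have h1 : (Finset.univ.filter fun j => δ i (a' j) ≠ 0) ⊆
            (Finset.univ.filter fun j => a j ≠ 0).erase j0 := by
          intro j hj
          rw [Finset.mem_filter] at hj
          rw [Finset.mem_erase, Finset.mem_filter]
          refine ⟨?_, Finset.mem_univ j, ?_⟩
          · rintro rfl
            apply hj.2
            rw [ha'0, Derivation.map_one_eq_zero]
          · intro h0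
            apply hj.2
            have : a' j = 0 := by simp [a', h0]
            rw [this, map_zero]
        have h2 := Finset.card_le_card h1
        have h3 : j0 ∈ Finset.univ.filter fun j => a j ≠ 0 :=
          Finset.mem_filter.2 ⟨Finset.mem_univ _, hj0⟩
        rw [Finset.card_erase_of_mem h3] at h2
        omega
      · intro w
        have h1 := congrArg (δ i) (hw' w)
        rw [map_sum, map_zero] at h1
        have h2 := hw' (i :: w)
        have h3 : ∑ j, δ i (a' j * wd δ w (e j)) =
            ∑ j, a' j * wd δ (i :: w) (e j) + ∑ j, δ i (a' j) * wd δ w (e j) := by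
          rw [← Finset.sum_add_distrib]
          refine Finset.sum_congr rfl fun j _ => ?_
          rw [Derivation.leibniz, wd, smul_eq_mul, smul_eq_mul, mul_comm (wd δ w (e j))]
        rw [h3, h2, zero_add] at h1
        exact h1
    have hmem : ∀ j, a' j ∈ F := fun j => hF _ fun i => congrFun (hder i) j
    have h1 : ∑ j, (⟨a' j, hmem j⟩ : F) • e j = 0 := hw' []
    have h2 := Fintype.linearIndependent_iff.1 he _ h1 j0
    have h3 : a' j0 = 0 := congrArg Subtype.val h2
    rw [ha'0] at h3
    exact one_ne_zero h3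

theorem span_top : Submodule.span K
    (Set.range fun (w : List (Fin r)) => (fun j => wd δ w (e j) : Fin s → K)) = ⊤ := by
  classical
  by_contra hne
  obtain ⟨f, hf0, hf⟩ := Submodule.exists_le_ker_of_lt_top _ (lt_top_iff_ne_top.2 hne)
  apply hf0
  have h1 := ann_zero δ F hF e he (fun j => f (Pi.single j 1)) (by
    intro w
    have h2 : f (fun j => wd δ w (e j)) = 0 :=
      LinearMap.mem_ker.1 (hf (Submodule.subset_span ⟨w, rfl⟩))
    have h3 : (fun j => wd δ w (e j)) = ∑ j, wd δ w (e j) • (Pi.single j (1 : K) : Fin s → K) := by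
      funext l
      rw [Finset.sum_apply, Finset.sum_eq_single l]
      · simp
      · intro b _ hb
        simp [Pi.single_eq_of_ne hb.symm]
      · simp
    rw [h3, map_sum] at h2
    rw [← h2]
    refine Finset.sum_congr rfl fun j _ => ?_
    rw [map_smul, smul_eq_mul, mul_comm])
  apply LinearMap.pi_ext'
  intro j
  ext
  simpa using congrFun h1 j

theorem exists_coef (hcF : ∀ f ∈ F, ∀ i, δ i f = 0) : ∃ l : Fin s → (List (Fin r) →₀ K),
    ∀ (c : Fin s → F) (i : Fin s),
      (c i : K) = (l i).sum fun w x => x * wd δ w (∑ j, (c j : K) * e j) := by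
  classical
  have h1 : ∀ i : Fin s, ∃ l : List (Fin r) →₀ K,
      (l.sum fun w x => x • (fun j => wd δ w (e j) : Fin s → K)) = Pi.single i 1 := by
    intro i
    have h2 : (Pi.single i 1 : Fin s → K) ∈ Submodule.span K
      (Set.range fun (w : List (Fin r)) => (fun j => wd δ w (e j) : Fin s → K)) := by
      rw [span_top δ F hF e he]
      trivial
    exact Finsupp.mem_span_range_iff_exists_finsupp.1 h2
  choose l hl using h1
  refine ⟨l, fun c i => ?_⟩
  have h3 : ∀ w, wd δ w (∑ j, (c j : K) * e j) = ∑ j, (c j : K) * wd δ w (e j) := by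
    intro w
    rw [wd_sum]
    exact Finset.sum_congr rfl fun j _ => wd_mul δ w (hcF _ (c j).2) _
  simp only [h3]
  have h4 : (l i).sum (fun w x => x * ∑ j, (c j : K) * wd δ w (e j)) =
      ∑ j, (c j : K) * ((l i).sum fun w x => x • (fun j => wd δ w (e j) : Fin s → K)) j := by
    simp only [Finsupp.sum, Finset.sum_apply, Pi.smul_apply, smul_eq_mul, Finset.mul_sum]
    rw [Finset.sum_comm]
    refine Finset.sum_congr rfl fun j _ => Finset.sum_congr rfl fun w _ => ?_
    ring
  rw [h4, hl, Finset.sum_eq_single i]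
  · simp
  · intro j _ hj
    simp [Pi.single_eq_of_ne hj]
  · simp

end words

/-! ### Orders -/

section orders

variable {K : Type} [Field K] [Algebra ℂ K] {r : ℕ} {P : Place ℂ K}

theorem ge_wd {δ : Fin r → Derivation ℂ K K} {c : ℕ}
    (h : ∀ (i : Fin r) (f : K), f ≠ 0 → Ge P (P.ord f - c) (δ i f)) (w : List (Fin r)) {N : ℤ}
    {f : K} (hf : Ge P N f) : Ge P (N - c * w.length) (wd δ w f) := by
  induction w with
  | nil => simpa [wd] using hf
  | cons i w ih =>
    rw [wd]
    rcases ih with h0 | h0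
    · rw [h0, map_zero]
      exact Ge.zero
    · by_cases h1 : wd δ w f = 0
      · rw [h1, map_zero]
        exact Ge.zero
      · refine (h i _ h1).mono ?_
        rw [List.length_cons]
        push_cast
        linarith

theorem no_drop {D : Derivation ℂ K K} (hD : DerReg P D) {t : K} (ht : P.ord t = 1)
    (hDt : D t = 0) {N : ℤ} {f : K} (hf : Ge P N f) : Ge P N (D f) := by
  have ht0 : t ≠ 0 := by
    rintro rfl
    rw [P.ord_zero] at ht
    exact zero_ne_one ht
  have htN : t ^ N ≠ 0 := zpow_ne_zero _ ht0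
  have h1 : D (t ^ N) = 0 := by
    rw [Derivation.leibniz_zpow, hDt]
    simp
  have h2 : f = t ^ N * (f / t ^ N) := by
    field_simp
  have h3 : Ge P 0 (f / t ^ N) := by
    apply Ge.of_mul' (h := t ^ N) (m := N) htN
    · rw [P.ord_zpow, ht, mul_one]
    · rw [mul_div_cancel₀ _ htN, zero_add]
      exact hf
  have h4 : D f = t ^ N * D (f / t ^ N) := by
    conv_lhs => rw [h2]
    rw [Derivation.leibniz, h1, smul_zero, add_zero, smul_eq_mul]
  rw [h4]
  have h5 : Ge P N (t ^ N) := Or.inr (by rw [P.ord_zpow, ht, mul_one])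
  have h6 : Ge P 0 (D (f / t ^ N)) := hD _ h3
  have h7 := h5.mul h6
  rwa [add_zero] at h7

theorem ge_wd0 {δ : Fin r → Derivation ℂ K K} (hD : ∀ i, DerReg P (δ i)) {t : K}
    (ht : P.ord t = 1) (hDt : ∀ i, δ i t = 0) (w : List (Fin r)) {N : ℤ} {f : K}
    (hf : Ge P N f) : Ge P N (wd δ w f) := by
  induction w with
  | nil => exact hf
  | cons i w ih => exact no_drop (hD i) ht (hDt i) ih

end orders

/-! ### Uniformizers in the subfield -/

section unif

open MvPolynomial

theorem exists_pderiv {σ : Type} [Fintype σ] (p : MvPolynomial σ ℂ) (hd : p.totalDegree ≠ 0) :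
    ∃ i, pderiv i p ≠ 0 ∧ (pderiv i p).totalDegree < p.totalDegree := by
  classical
  have hle : ∀ i, (pderiv i p).totalDegree < p.totalDegree := by
    intro i
    have h1 : (pderiv i p).totalDegree ≤ p.totalDegree - 1 := by
      refine Finset.sup_le fun m hm => ?_
      rw [mem_support_iff, coeff_pderiv] at hm
      have h2 : m + Finsupp.single i 1 ∈ p.support := by
        rw [mem_support_iff]
        intro h0
        rw [h0] at hm
        simp at hm
      have h3 := le_totalDegree h2
      have h4 : (m + Finsupp.single i 1).sum (fun _ e => e) = m.sum (fun _ e => e) + 1 := by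
        rw [Finsupp.sum_add_index' (fun _ => rfl) (fun _ _ _ => rfl)]
        simp
      omega
    omega
  obtain ⟨m, hm, hm2⟩ : ∃ m ∈ p.support, (m.sum fun _ e => e) = p.totalDegree := by
    have hp : p.support.Nonempty := by
      rw [Finset.nonempty_iff_ne_empty]
      intro h
      apply hd
      rw [totalDegree, h, Finset.sup_empty]
      rfl
    obtain ⟨m, hm, h⟩ := Finset.exists_mem_eq_sup p.support hp (fun s => s.sum fun _ e => e)
    exact ⟨m, hm, h.symm⟩
  obtain ⟨i, hi⟩ : ∃ i, m i ≠ 0 := by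
    by_contra hcon
    push Not at hcon
    apply hd
    rw [← hm2, Finsupp.sum]
    exact Finset.sum_eq_zero fun i _ => hcon i
  refine ⟨i, ?_, hle i⟩
  intro h0
  have h1 := congrArg (coeff (m - Finsupp.single i 1)) h0
  have h2 : m - Finsupp.single i 1 + Finsupp.single i 1 = m := by
    ext j
    by_cases hj : j = i
    · subst hj
      simp
      omega
    · simp [Finsupp.single_eq_of_ne hj]
  rw [coeff_pderiv, h2, coeff_zero] at h1
  have h3 : coeff m p ≠ 0 := mem_support_iff.1 hm
  rcases mul_eq_zero.1 h1 with h4 | h4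
  · exact h3 h4
  · have h5 : (((m - Finsupp.single i 1 : σ →₀ ℕ) i + 1 : ℕ) : ℂ) = 0 := by
      push_cast
      exact h4
    exact absurd h5 (Nat.cast_ne_zero.2 (Nat.succ_ne_zero _))

variable {K : Type} [Field K] [Algebra ℂ K] {P : Place ℂ K}

theorem chain {ι : Type} [Fintype ι] (D : Derivation ℂ K K) (v : ι → K)
    (p : MvPolynomial ι ℂ) : D (aeval v p) = ∑ j, aeval v (pderiv j p) * D (v j) := by
  classical
  induction p using MvPolynomial.induction_on with
  | C a =>
    rw [aeval_C, D.map_algebraMap]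
    simp
  | add p q hp hq =>
    rw [map_add, map_add, hp, hq, ← Finset.sum_add_distrib]
    refine Finset.sum_congr rfl fun j _ => ?_
    rw [map_add, map_add, add_mul]
  | mul_X p n hp =>
    rw [map_mul, aeval_X, D.leibniz, hp, smul_eq_mul, smul_eq_mul, Finset.mul_sum]
    have h1 : ∀ j, aeval v (pderiv j (p * X n)) * D (v j) =
        v n * (aeval v (pderiv j p) * D (v j)) + (if j = n then aeval v p * D (v n) else 0) := by
      intro j
      rw [pderiv_mul, pderiv_X, map_add, map_mul, map_mul, aeval_X]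
      by_cases hj : j = n
      · subst hj
        simp
        ring
      · simp [hj]
        ring
    rw [Finset.sum_congr rfl fun j _ => h1 j, Finset.sum_add_distrib]
    simp
    ring

/-- a polynomial of positive order of least degree has order one -/
theorem ord_one_of_pos {ι : Type} [Fintype ι] [DecidableEq ι] {x : ι → K}
    (hx : AlgebraicIndependent ℂ x) {E : ι → Derivation ℂ K K}
    (hE : ∀ i j, E i (x j) = if i = j then 1 else 0) (hreg : ∀ i, DerReg P (E i))
    (p : MvPolynomial ι ℂ) (hp0 : p ≠ 0) (hp : Ge P 1 (aeval x p)) :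
    ∃ p : MvPolynomial ι ℂ, P.ord (aeval x p) = 1 := by
  classical
  have hex : ∃ d : ℕ, ∃ p : MvPolynomial ι ℂ, p ≠ 0 ∧ Ge P 1 (aeval x p) ∧ p.totalDegree = d :=
    ⟨_, p, hp0, hp, rfl⟩
  obtain ⟨q, hq0, hq, hqd⟩ := Nat.find_spec hex
  have hmin : ∀ q' : MvPolynomial ι ℂ, q' ≠ 0 → Ge P 1 (aeval x q') →
      Nat.find hex ≤ q'.totalDegree := fun q' h1 h2 => Nat.find_min' hex ⟨q', h1, h2, rfl⟩
  have hne : ∀ q' : MvPolynomial ι ℂ, q' ≠ 0 → aeval x q' ≠ 0 := fun q' h1 h2 =>
    h1 (algebraicIndependent_iff.1 hx q' h2)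
  have hord : 1 ≤ P.ord (aeval x q) := hq.resolve_left (hne q hq0)
  by_cases hd : q.totalDegree = 0
  · exfalso
    rw [totalDegree_eq_zero_iff_eq_C] at hd
    have hc : coeff 0 q ≠ 0 := by
      intro h
      rw [h, C_0] at hd
      exact hq0 hd
    rw [hd, aeval_C, P.ord_const hc] at hord
    omega
  · obtain ⟨i, hi0, hi⟩ := exists_pderiv q hd
    refine ⟨q, le_antisymm ?_ hord⟩
    by_contra hcon
    push Not at hcon
    have h1 : E i (aeval x q) = aeval x (pderiv i q) := by
      rw [chain, Finset.sum_eq_single i]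
      · rw [hE, if_pos rfl, mul_one]
      · intro j _ hj
        rw [hE, if_neg (Ne.symm hj), mul_zero]
      · intro h
        exact absurd (Finset.mem_univ i) h
    have h2 := ge_der_reg (hreg i) (aeval x q)
    rw [h1] at h2
    have h3 := hmin _ hi0 (h2.mono (by omega))
    omega

theorem ge_aeval {σ : Type} {z : σ → K} (hz : ∀ l, Ge P 0 (z l)) (p : MvPolynomial σ ℂ) :
    Ge P 0 (aeval z p) := by
  induction p using MvPolynomial.induction_on with
  | C a =>
    rw [aeval_C]
    exact Ge.const a
  | add p q hp hq =>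
    rw [map_add]
    exact hp.add hq
  | mul_X p n hp =>
    rw [map_mul, aeval_X]
    have := hp.mul (hz n)
    rwa [add_zero] at this

/-- a place which is not trivial on `F` is not trivial on the polynomials in a transcendence basis -/
theorem exists_pos (F : IntermediateField ℂ K) {σ : Type} {z : σ → F}
    (hz : IsTranscendenceBasis ℂ z) (hreg : ∀ l, Ge P 0 (z l : K)) (hnh : ¬ Horizontal F P) :
    ∃ p : MvPolynomial σ ℂ, p ≠ 0 ∧ Ge P 1 (aeval (fun l => (z l : K)) p) := by
  classical
  obtain ⟨g, hg0, hg⟩ : ∃ g : F, g ≠ 0 ∧ 1 ≤ P.ord (g : K) := by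
    unfold Horizontal at hnh
    push Not at hnh
    obtain ⟨f, hfF, hf0, hf⟩ := hnh
    rcases lt_or_gt_of_ne hf with h | h
    · refine ⟨⟨f⁻¹, F.inv_mem hfF⟩, ?_, ?_⟩
      · intro h0
        exact inv_ne_zero hf0 (congrArg Subtype.val h0)
      · change 1 ≤ P.ord f⁻¹
        rw [P.ord_inv]
        omega
    · refine ⟨⟨f, hfF⟩, ?_, ?_⟩
      · intro h0
        exact hf0 (congrArg Subtype.val h0)
      · change 1 ≤ P.ord f
        omega
  have halg : IsAlgebraic (Algebra.adjoin ℂ (Set.range z)) g := hz.isAlgebraic.isAlgebraic g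
  obtain ⟨q, hq0, hq⟩ := halg.exists_nonzero_coeff_and_aeval_eq_zero
    (mem_nonZeroDivisors_of_ne_zero hg0)
  have hrange : ∀ b : Algebra.adjoin ℂ (Set.range z), ∃ p : MvPolynomial σ ℂ,
      aeval z p = (b : F) := by
    intro b
    have h1 : (b : F) ∈ (aeval z : MvPolynomial σ ℂ →ₐ[ℂ] F).range := by
      rw [← Algebra.adjoin_range_eq_range_aeval]
      exact b.2
    exact h1
  have hval : ∀ p : MvPolynomial σ ℂ, aeval (fun l => (z l : K)) p = ((aeval z p : F) : K) := by
    intro p
    exact (MvPolynomial.aeval_algebraMap_apply K z p)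
  have hcoef : ∀ b : Algebra.adjoin ℂ (Set.range z), Ge P 0 (((b : F)) : K) := by
    intro b
    obtain ⟨p, hp⟩ := hrange b
    rw [← hp, ← hval]
    exact ge_aeval hreg p
  obtain ⟨p, hp⟩ := hrange (q.coeff 0)
  refine ⟨p, ?_, ?_⟩
  · rintro rfl
    rw [map_zero] at hp
    exact hq0 (Subtype.ext hp.symm)
  · rw [hval, hp]
    have h1 : ((q.coeff 0 : Algebra.adjoin ℂ (Set.range z)) : F) =
        - ∑ k ∈ Finset.range q.natDegree, ((q.coeff (k + 1) : Algebra.adjoin ℂ (Set.range z)) : F) *
          g ^ (k + 1) := by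
      rw [Polynomial.aeval_eq_sum_range, Finset.sum_range_succ'] at hq
      have h2 : ∀ k, q.coeff k • g ^ k =
          ((q.coeff k : Algebra.adjoin ℂ (Set.range z)) : F) * g ^ k := fun k => rfl
      have h3 : q.coeff 0 • g ^ 0 =
          ((q.coeff 0 : Algebra.adjoin ℂ (Set.range z)) : F) := by
        rw [h2, pow_zero, mul_one]
      rw [h3] at hq
      simp only [h2] at hq
      exact eq_neg_of_add_eq_zero_right hq
    have h2 : (((q.coeff 0 : Algebra.adjoin ℂ (Set.range z)) : F) : K) =
        - ∑ k ∈ Finset.range q.natDegree,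
          (((q.coeff (k + 1) : Algebra.adjoin ℂ (Set.range z)) : F) : K) * (g : K) ^ (k + 1) := by
      rw [h1]
      push_cast
      rfl
    rw [h2]
    refine Ge.neg (Ge.sum _ _ fun k _ => ?_)
    have h3 : Ge P 1 ((g : K) ^ (k + 1)) := by
      right
      rw [P.ord_pow]
      push_cast
      nlinarith
    have h4 := (hcoef (q.coeff (k + 1))).mul h3
    rwa [zero_add] at h4

end unif

/-- **The orders of the coefficients of a combination** along the vertical prime divisors. -/
theorem norm_bound {K : Type} [Field K] [Algebra ℂ K] {N n : ℕ} {y : Fin (N + 1) → K}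
    (hy : NormalModel y) (hn : Algebra.trdeg ℂ K = n) (F : IntermediateField ℂ K)
    (hF : ∀ x : K, IsAlgebraic F x → x ∈ F) {s : ℕ} (e : Fin s → K) (he : LinearIndependent F e) :
    ∃ C : Place ℂ K → ℕ, {P | IsPrimeDivisor y P ∧ C P ≠ 0}.Finite ∧
      ∀ P, IsPrimeDivisor y P → ¬ Horizontal F P → ∀ (c : Fin s → F) (i : Fin s), c i ≠ 0 →
        P.ord (∑ j, (c j : K) * e j) - C P ≤ P.ord ((c i : F) : K) := by
  classical
  have hess := hy.ess
  have htr : Algebra.trdeg ℂ F + Algebra.trdeg F K = n := by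
    rw [trdeg_add_eq ℂ F, hn]
  obtain ⟨r, u, hu⟩ : ∃ (r : ℕ) (u : Fin r → K), IsTranscendenceBasis F u := by
    obtain ⟨S, hS⟩ := exists_isTranscendenceBasis F K
    have h1 : Cardinal.mk S < Cardinal.aleph0 := by
      rw [hS.cardinalMk_eq_trdeg]
      refine lt_of_le_of_lt ?_ (Cardinal.natCast_lt_aleph0 (n := n))
      rw [← htr]
      exact self_le_add_left _ _
    have h2 : Finite S := Cardinal.lt_aleph0_iff_finite.1 h1
    obtain ⟨r, ⟨f⟩⟩ := Finite.exists_equiv_fin S
    exact ⟨r, _, hS.comp_equiv f.symm⟩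
  obtain ⟨x, E, ι, hι, hx, hE, hxu, hxF, hlog⟩ :=
    t_CRD K F r u hu.1 (fun f => hu.isAlgebraic.isAlgebraic f) n hn
  obtain ⟨δ, hδ⟩ : ∃ δ : Fin r → Derivation ℂ K K, δ = fun i => u i • E (ι i) := ⟨_, rfl⟩
  rw [← hδ] at hlog
  obtain ⟨-, hconst, -⟩ := t_COM K F r u δ hlog
  have hδF : ∀ f, (∀ i, δ i f = 0) → f ∈ F := fun f h => hF f (hconst f h)
  have hcF : ∀ f ∈ F, ∀ i, δ i f = 0 := fun f hf i => hlog.zero i f hf
  obtain ⟨l, hl⟩ := exists_coef δ F hδF e he hcF
  -- the coordinates of `F`
  let σ : Type := {j : Fin n // j ∉ Set.range ι}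
  let z : σ → F := fun j => ⟨x j, hxF j j.2⟩
  have hz : IsTranscendenceBasis ℂ z := by
    have h1 : AlgebraicIndependent ℂ z := by
      rw [← F.val.algebraicIndependent_iff F.val.injective]
      exact hx.1.comp (fun j : σ => (j : Fin n)) Subtype.val_injective
    refine h1.isTranscendenceBasis_of_trdeg_le_of_finite ?_
    have h2 : Algebra.trdeg ℂ F < Cardinal.aleph0 := by
      refine lt_of_le_of_lt ?_ (Cardinal.natCast_lt_aleph0 (n := n))
      rw [← htr]
      exact self_le_add_right _ _
    obtain ⟨m, hm⟩ := Cardinal.lt_aleph0.1 h2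
    rw [hm, ← hu.cardinalMk_eq_trdeg, Cardinal.mk_fin] at htr
    have h3 : m + r = n := by exact_mod_cast htr
    have h4 : Fintype.card σ = n - r := by
      have h5 : Fintype.card (Set.range ι) = r := by
        rw [Set.card_range_of_injective hι, Fintype.card_fin]
      have h6 : Fintype.card σ = Fintype.card (Fin n) - Fintype.card {i // i ∈ Set.range ι} :=
        Fintype.card_subtype_compl _
      rw [h6, Fintype.card_fin]
      congr 1
    rw [hm, Cardinal.mk_fintype, h4]
    exact_mod_cast (by omega : m ≤ n - r)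
  -- the bounds
  obtain ⟨hfin0, hbd⟩ := t_REG K N n y hy hn r δ
  obtain ⟨hfin1, -⟩ := t_REG K N n y hy hn n E
  choose! c hc using hbd
  have hx0 : ∀ j, x j ≠ 0 := fun j => hx.1.ne_zero j
  obtain ⟨S, hS⟩ : ∃ S : Set (Place ℂ K), S = {P | IsPrimeDivisor y P ∧ ¬ ∀ i, DerReg P (δ i)} ∪
      {P | IsPrimeDivisor y P ∧ ¬ ∀ i, DerReg P (E i)} ∪
      (⋃ j, {P | IsPrimeDivisor y P ∧ P.ord (x j) ≠ 0}) ∪
      (⋃ i, ⋃ w ∈ (l i).support, {P | IsPrimeDivisor y P ∧ P.ord (l i w) ≠ 0}) := ⟨_, rfl⟩
  have hSfin : S.Finite := by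
    rw [hS]
    refine ((hfin0.union hfin1).union (Set.finite_iUnion fun j => finite_ord hy (hx0 j))).union
      (Set.finite_iUnion fun i => Set.Finite.biUnion (Finset.finite_toSet _) fun w hw => ?_)
    exact finite_ord hy (Finsupp.mem_support_iff.1 hw)
  refine ⟨fun P => if P ∈ S then ∑ i, ∑ w ∈ (l i).support,
    ((P.ord (l i w)).natAbs + c P * w.length) else 0, ?_, ?_⟩
  · refine hSfin.subset ?_
    rintro P ⟨-, hP⟩
    by_contra hcon
    exact hP (if_neg hcon)
  intro P hP hnh a i hi
  obtain ⟨b, hb⟩ : ∃ b : K, b = ∑ j, (a j : K) * e j := ⟨_, rfl⟩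
  rw [← hb]
  have hai : ((a i : F) : K) ≠ 0 := fun h => hi (Subtype.ext h)
  have hGe : Ge P (P.ord b - ((if P ∈ S then ∑ i, ∑ w ∈ (l i).support,
    ((P.ord (l i w)).natAbs + c P * w.length) else 0 : ℕ) : ℤ)) ((a i : F) : K) := by
    rw [hl a i, ← hb]
    split_ifs with hPS
    · refine Ge.sum _ _ fun w hw => ?_
      have h1 := ge_wd (hc P hP) w (ge_ord P b)
      have h2 := (ge_ord P (l i w)).mul h1
      refine h2.mono ?_
      have h3 : ((P.ord (l i w)).natAbs + c P * w.length) ≤ ∑ i, ∑ w ∈ (l i).support,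
          ((P.ord (l i w)).natAbs + c P * w.length) :=
        (Finset.single_le_sum (f := fun w => (P.ord (l i w)).natAbs + c P * w.length)
          (fun _ _ => Nat.zero_le _) hw).trans
        (Finset.single_le_sum (f := fun i => ∑ w ∈ (l i).support,
          ((P.ord (l i w)).natAbs + c P * w.length)) (fun _ _ => Nat.zero_le _)
          (Finset.mem_univ i))
      have h4 : (((P.ord (l i w)).natAbs + c P * w.length : ℕ) : ℤ) ≤ ((∑ i, ∑ w ∈ (l i).support,
          ((P.ord (l i w)).natAbs + c P * w.length) : ℕ) : ℤ) := by exact_mod_cast h3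
      have h5 : -|P.ord (l i w)| ≤ P.ord (l i w) := neg_abs_le _
      rw [Nat.cast_add, Int.natCast_natAbs, Nat.cast_mul] at h4
      linarith
    · -- almost all places
      rw [hS] at hPS
      simp only [Set.mem_union, not_or] at hPS
      obtain ⟨⟨⟨h1, h2⟩, h3⟩, h4⟩ := hPS
      have hδreg : ∀ i, DerReg P (δ i) := by
        by_contra hcon
        exact h1 ⟨hP, hcon⟩
      have hEreg : ∀ i, DerReg P (E i) := by
        by_contra hcon
        exact h2 ⟨hP, hcon⟩
      have hxord : ∀ j, P.ord (x j) = 0 := by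
        intro j
        by_contra hcon
        exact h3 (Set.mem_iUnion.2 ⟨j, hP, hcon⟩)
      have hlord : ∀ w ∈ (l i).support, P.ord (l i w) = 0 := by
        intro w hw
        by_contra hcon
        exact h4 (Set.mem_iUnion.2 ⟨i, Set.mem_iUnion₂.2 ⟨w, hw, hP, hcon⟩⟩)
      obtain ⟨p, hp0, hp⟩ := exists_pos (P := P) F hz
        (fun j => Or.inr (hxord j).ge) hnh
      obtain ⟨q, hq⟩ := ord_one_of_pos (P := P) (x := fun j : σ => x j)
        (hx.1.comp (fun j : σ => (j : Fin n)) Subtype.val_injective) (E := fun j => E j)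
        (fun i j => by
          rw [hE]
          by_cases h : i = j
          · rw [if_pos h, if_pos (congrArg Subtype.val h)]
          · rw [if_neg h, if_neg fun h' => h (Subtype.ext h')])
        (fun i => hEreg i) p hp0 hp
      have hqF : MvPolynomial.aeval (fun j : σ => x j) q ∈ F := by
        have h5 : MvPolynomial.aeval (fun j : σ => x j) q =
            ((MvPolynomial.aeval z q : F) : K) := MvPolynomial.aeval_algebraMap_apply K z q
        rw [h5]
        exact (MvPolynomial.aeval z q).2
      rw [Nat.cast_zero, sub_zero]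
      refine Ge.sum _ _ fun w hw => ?_
      have h5 := ge_wd0 hδreg hq (fun i => hcF _ hqF i) w (ge_ord P b)
      have h6 := (ge_ord P (l i w)).mul h5
      rwa [hlord w hw, zero_add] at h6
  exact hGe.resolve_left hai

end Pool.Agent.Helper21.CP
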